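import Mathlib

set_option autoImplicit false

/-!
# Fourier analysis on `ZMod M`
-/

namespace Pool.Agent.V11161.BF

open Finset ComplexConjugate

variable {M : ℕ} [NeZero M]

/-- the standard character -/
noncomputable def ps : AddChar (ZMod M) ℂ := ZMod.stdAddChar

theorem ps_norm (x : ZMod M) : ‖(ps x : ℂ)‖ = 1 := AddChar.norm_apply ps x

theorem ps_neg (x : ZMod M) : ps (-x) = conj (ps x : ℂ) := AddChar.map_neg_eq_conj ps x

theorem ps_sum (a : ZMod M) : ∑ r, (ps (r * a) : ℂ) = if a = 0 then (M : ℂ) else 0 := by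
  have h := AddChar.sum_mulShift (ψ := (ps : AddChar (ZMod M) ℂ)) a (ZMod.isPrimitive_stdAddChar M)
  rw [h, ZMod.card]
  split_ifs <;> simp

/-- the Fourier transform -/
noncomputable def ft (w : ZMod M → ℂ) (r : ZMod M) : ℂ := ∑ x, w x * ps (r * x)

theorem corr (w F : ZMod M → ℂ) (h : ZMod M) :
    ∑ r, ft w r * conj (ft F r) * ps (-(r * h)) = M * ∑ y, w (y + h) * conj (F y) := by
  have e1 : ∀ r : ZMod M, ft w r * conj (ft F r) * ps (-(r * h)) =
      ∑ y, ∑ x, w x * conj (F y) * ps (r * (x - y - h)) := by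
    intro r
    unfold ft
    rw [map_sum, sum_mul_sum, sum_mul, sum_comm]
    refine sum_congr rfl fun x _ => ?_
    rw [sum_mul]
    refine sum_congr rfl fun y _ => ?_
    rw [map_mul (starRingEnd ℂ), ← ps_neg]
    have e2 : r * (x - y - h) = r * x + (-(r * y)) + (-(r * h)) := by ring
    rw [e2, AddChar.map_add_eq_mul, AddChar.map_add_eq_mul]
    ring
  simp only [e1]
  rw [sum_comm, mul_sum]
  refine sum_congr rfl fun y _ => ?_
  rw [sum_comm]
  have e3 : ∀ x : ZMod M, ∑ r : ZMod M, w x * conj (F y) * ps (r * (x - y - h)) =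
      if x = y + h then (M : ℂ) * (w x * conj (F y)) else 0 := by
    intro x
    rw [← mul_sum, ps_sum]
    by_cases hx : x = y + h
    · subst hx
      have : y + h - y - h = 0 := by ring
      rw [if_pos this, if_pos rfl]
      ring
    · have : x - y - h ≠ 0 := by
        intro h0
        apply hx
        linear_combination h0
      rw [if_neg this, if_neg hx, mul_zero]
  simp only [e3]
  rw [sum_ite_eq' univ (y + h) (fun x => (M : ℂ) * (w x * conj (F y)))]
  simp

/-- Plancherel -/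
theorem planch (w : ZMod M → ℂ) : ∑ r, ‖ft w r‖ ^ 2 = M * ∑ x, ‖w x‖ ^ 2 := by
  have h := corr w w 0
  simp only [mul_zero, neg_zero, AddChar.map_zero_eq_one, mul_one, add_zero] at h
  have e : ∀ z : ℂ, z * conj z = ((‖z‖ ^ 2 : ℝ) : ℂ) := by
    intro z
    rw [Complex.mul_conj, Complex.normSq_eq_norm_sq]
  simp only [e] at h
  exact_mod_cast h

theorem planch' (c : ZMod M → ℂ) : ∑ h, ‖∑ r, c r * ps (-(r * h))‖ ^ 2 = M * ∑ r, ‖c r‖ ^ 2 := by
  have h := planch (fun r => conj (c r))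
  simp only [RCLike.norm_conj] at h
  rw [← h]
  refine sum_congr rfl fun a _ => ?_
  congr 1
  rw [← RCLike.norm_conj, map_sum]
  congr 1
  unfold ft
  refine sum_congr rfl fun r _ => ?_
  rw [map_mul, ps_neg, Complex.conj_conj, mul_comm a r]

/-- the transform of a translate -/
theorem ft_shift (w : ZMod M → ℂ) (t r : ZMod M) :
    ft (fun x => w (x + t)) r = ps (-(r * t)) * ft w r := by
  unfold ft
  rw [mul_sum]
  have h := Equiv.sum_comp (Equiv.addRight t) (fun x => ps (-(r * t)) * (w x * ps (r * x)))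
  rw [← h]
  refine sum_congr rfl fun x _ => ?_
  simp only [Equiv.coe_addRight]
  have e : (ps (r * x) : ℂ) = ps (-(r * t)) * ps (r * (x + t)) := by
    rw [← AddChar.map_add_eq_mul]
    congr 1
    ring
  rw [e]
  ring

/-- Cauchy-Schwarz for norms -/
theorem cs {ι : Type} (S : Finset ι) (a b : ι → ℝ) (A B : ℝ) (hA : 0 ≤ A) (hB : 0 ≤ B)
    (h1 : ∑ x ∈ S, a x ^ 2 ≤ A ^ 2) (h2 : ∑ x ∈ S, b x ^ 2 ≤ B ^ 2) :
    ∑ x ∈ S, a x * b x ≤ A * B := by
  have h := sum_mul_sq_le_sq_mul_sq S a b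
  have h3 : (∑ x ∈ S, a x * b x) ^ 2 ≤ (A * B) ^ 2 := by
    refine h.trans ?_
    rw [mul_pow]
    exact mul_le_mul h1 h2 (sum_nonneg fun x _ => sq_nonneg _) (sq_nonneg _)
  exact abs_le_of_sq_le_sq' h3 (mul_nonneg hA hB) |>.2

end Pool.Agent.V11161.BF
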