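import Mathlib
import Pool.Agent.V11161.BF.Fourier

set_option autoImplicit false

/-!
# Bohr sets in `ZMod M`
-/

namespace Pool.Agent.V11161.BF

open Finset ComplexConjugate

open Classical in
/-- the Bohr set of the frequencies `Γ` and the radius `ρ` -/
noncomputable def bohr {M : ℕ} [NeZero M] (Γ : Finset (ZMod M)) (ρ : ℝ) : Finset (ZMod M) :=
  univ.filter fun h => ∀ r ∈ Γ, ‖(ps (r * h) : ℂ) - 1‖ ≤ ρ

theorem mem_bohr {M : ℕ} [NeZero M] {Γ : Finset (ZMod M)} {ρ : ℝ} {h : ZMod M} :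
    h ∈ bohr Γ ρ ↔ ∀ r ∈ Γ, ‖(ps (r * h) : ℂ) - 1‖ ≤ ρ := by
  classical
  unfold bohr
  rw [mem_filter]
  exact ⟨fun h => h.2, fun h => ⟨mem_univ _, h⟩⟩

theorem zero_mem_bohr {M : ℕ} [NeZero M] {Γ : Finset (ZMod M)} {ρ : ℝ} (hρ : 0 ≤ ρ) :
    (0 : ZMod M) ∈ bohr Γ ρ := by
  rw [mem_bohr]
  intro r _
  rw [mul_zero, AddChar.map_zero_eq_one, sub_self, norm_zero]
  exact hρ

open Classical in
/-- the pigeonhole lower bound for the size of a Bohr set -/
theorem bohr_card (ρ : ℝ) (hρ : 0 < ρ) : ∃ K : ℕ, 1 ≤ K ∧ ∀ (M : ℕ) [NeZero M]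
    (Γ : Finset (ZMod M)), (M : ℝ) / (K : ℝ) ^ Γ.card ≤ ((bohr Γ ρ).card : ℝ) := by
  set Q : ℕ := ⌈2 / ρ⌉₊ + 1 with hQ
  have hQ0 : (0 : ℝ) < Q := by
    rw [hQ]; positivity
  have hQρ : 2 / (Q : ℝ) ≤ ρ := by
    rw [div_le_iff₀ hQ0]
    have h1 : 2 / ρ ≤ Q := by
      rw [hQ]
      push_cast
      have := Nat.le_ceil (2 / ρ)
      linarith
    rw [div_le_iff₀ hρ] at h1
    linarith
  set K : ℕ := (2 * Q + 1) * (2 * Q + 1) with hK
  have hK1 : 1 ≤ K := by rw [hK]; nlinarith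
  refine ⟨K, hK1, fun M _ Γ => ?_⟩
  set cell : ℂ → ℤ × ℤ := fun z => (⌊(Q : ℝ) * z.re⌋, ⌊(Q : ℝ) * z.im⌋) with hcell
  set box : Finset (ℤ × ℤ) := Icc (-(Q : ℤ)) Q ×ˢ Icc (-(Q : ℤ)) Q with hbox
  have hboxc : box.card = K := by
    rw [hbox, card_product, Int.card_Icc]
    have : ((Q : ℤ) + 1 - -(Q : ℤ)).toNat = 2 * Q + 1 := by omega
    rw [this]
  have hfl : ∀ a : ℝ, |a| ≤ 1 → ⌊(Q : ℝ) * a⌋ ∈ Icc (-(Q : ℤ)) Q := by
    intro a ha
    obtain ⟨h1, h2⟩ := abs_le.1 ha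
    rw [mem_Icc]
    constructor
    · apply Int.le_floor.2
      push_cast
      nlinarith
    · have h3 : (⌊(Q : ℝ) * a⌋ : ℝ) ≤ Q := (Int.floor_le _).trans (by nlinarith)
      exact_mod_cast h3
  have hmem : ∀ z : ℂ, ‖z‖ = 1 → cell z ∈ box := by
    intro z hz
    rw [hbox, mem_product]
    exact ⟨hfl _ (by rw [← hz]; exact Complex.abs_re_le_norm z),
      hfl _ (by rw [← hz]; exact Complex.abs_im_le_norm z)⟩
  have hclose : ∀ a b : ℝ, ⌊(Q : ℝ) * a⌋ = ⌊(Q : ℝ) * b⌋ → |a - b| ≤ 1 / Q := by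
    intro a b h
    have h1 := Int.abs_sub_lt_one_of_floor_eq_floor h
    rw [← mul_sub, abs_mul, abs_of_pos hQ0] at h1
    rw [le_div_iff₀ hQ0]
    linarith
  have hcell2 : ∀ z w : ℂ, cell z = cell w → ‖z - w‖ ≤ ρ := by
    intro z w h
    have h1 := hclose _ _ (congrArg Prod.fst h)
    have h2 := hclose _ _ (congrArg Prod.snd h)
    refine (Complex.norm_le_abs_re_add_abs_im _).trans ?_
    rw [Complex.sub_re, Complex.sub_im]
    have : (1 : ℝ) / Q + 1 / Q = 2 / Q := by ring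
    linarith
  set t : Finset (Γ → ℤ × ℤ) := Fintype.piFinset fun _ => box with ht
  have htc : t.card = K ^ Γ.card := by
    rw [ht, Fintype.card_piFinset, prod_const, card_univ, Fintype.card_coe, hboxc]
  have hKr : (0 : ℝ) < (K : ℝ) ^ Γ.card := by
    have : (0 : ℝ) < K := by exact_mod_cast hK1
    positivity
  have hM0 : (0 : ℝ) < M := by
    have := NeZero.pos M
    exact_mod_cast this
  obtain ⟨y, -, hy⟩ := exists_le_card_fiber_of_nsmul_le_card_of_maps_to
    (s := (univ : Finset (ZMod M))) (t := t)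
    (f := fun x => fun r : Γ => cell (ps ((r : ZMod M) * x))) (b := (M : ℝ) / (K : ℝ) ^ Γ.card)
    (by
      intro x _
      rw [ht, Fintype.mem_piFinset]
      intro r
      exact hmem _ (ps_norm _)) (by
      rw [← card_pos, htc]
      exact Nat.pow_pos hK1) (by
      rw [htc, nsmul_eq_mul, card_univ, ZMod.card]
      push_cast
      rw [mul_div_cancel₀ _ hKr.ne'])
  refine hy.trans ?_
  set F := (univ : Finset (ZMod M)).filter
    (fun x => (fun r : Γ => cell (ps ((r : ZMod M) * x))) = y) with hF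
  have hFpos : (0 : ℝ) < F.card := lt_of_lt_of_le (by positivity) hy
  have hFpos' : 0 < F.card := by exact_mod_cast hFpos
  obtain ⟨x₀, hx₀⟩ := card_pos.1 hFpos'
  rw [Nat.cast_le]
  refine card_le_card_of_injOn (fun x => x - x₀) ?_ ?_
  · intro x hx
    rw [mem_coe, mem_bohr]
    intro r hr
    have h1 : (fun r : Γ => cell (ps ((r : ZMod M) * x))) = y := (mem_filter.1 (mem_coe.1 hx)).2
    have h2 : (fun r : Γ => cell (ps ((r : ZMod M) * x₀))) = y := (mem_filter.1 hx₀).2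
    have h3 : cell (ps (r * x)) = cell (ps (r * x₀)) := by
      have h4 := congrFun (h1.trans h2.symm) ⟨r, hr⟩
      exact h4
    have h5 := hcell2 _ _ h3
    have h6 : (ps (r * (x - x₀)) : ℂ) - 1 = (ps (r * x) - ps (r * x₀)) * ps (-(r * x₀)) := by
      have e1 : r * (x - x₀) = r * x + -(r * x₀) := by ring
      have e2 : (ps (r * x₀) : ℂ) * ps (-(r * x₀)) = 1 := by
        rw [← AddChar.map_add_eq_mul, add_neg_cancel, AddChar.map_zero_eq_one]
      rw [e1, AddChar.map_add_eq_mul, sub_mul, e2]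
    rw [h6, norm_mul, ps_norm, mul_one]
    exact h5
  · intro x _ x' _ h
    exact sub_left_injective h

variable {M : ℕ} [NeZero M]

/-- the multiplier of the average over `B` -/
noncomputable def bt (B : Finset (ZMod M)) (r : ZMod M) : ℂ :=
  (∑ t ∈ B, (ps (-(r * t)) : ℂ)) / B.card

theorem bt_norm (B : Finset (ZMod M)) (r : ZMod M) : ‖bt B r‖ ≤ 1 := by
  unfold bt
  rw [norm_div, Complex.norm_natCast]
  rcases Nat.eq_zero_or_pos B.card with h | h
  · rw [h, Nat.cast_zero, div_zero]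
    exact zero_le_one
  · rw [div_le_one (by exact_mod_cast h)]
    refine (norm_sum_le _ _).trans (le_of_eq ?_)
    rw [sum_congr rfl fun t _ => ps_norm _, sum_const, nsmul_eq_mul, mul_one]

theorem ps_sub_one_neg (x : ZMod M) : ‖(ps (-x) : ℂ) - 1‖ = ‖(ps x : ℂ) - 1‖ := by
  rw [ps_neg, ← RCLike.norm_conj, map_sub, Complex.conj_conj, map_one]

theorem bt_close {Γ : Finset (ZMod M)} {ρ : ℝ} (hρ : 0 ≤ ρ) {r : ZMod M} (hr : r ∈ Γ) :
    ‖1 - bt (bohr Γ ρ) r‖ ≤ ρ := by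
  set B := bohr Γ ρ with hB
  have hB0 : 0 < B.card := card_pos.2 ⟨0, zero_mem_bohr hρ⟩
  have hBr : (0 : ℝ) < B.card := by exact_mod_cast hB0
  have hBc : (B.card : ℂ) ≠ 0 := by exact_mod_cast hB0.ne'
  have e : 1 - bt B r = (∑ t ∈ B, (1 - (ps (-(r * t)) : ℂ))) / B.card := by
    unfold bt
    rw [sum_sub_distrib, sum_const, nsmul_eq_mul, mul_one, sub_div, div_self hBc]
  rw [e, norm_div, Complex.norm_natCast, div_le_iff₀ hBr]
  refine (norm_sum_le _ _).trans ?_
  calc ∑ t ∈ B, ‖1 - (ps (-(r * t)) : ℂ)‖ ≤ ∑ _t ∈ B, ρ := by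
        refine sum_le_sum fun t ht => ?_
        rw [norm_sub_rev, ps_sub_one_neg]
        exact mem_bohr.1 ht r hr
    _ = ρ * B.card := by rw [sum_const, nsmul_eq_mul, mul_comm]

theorem bt_sq (B : Finset (ZMod M)) (hB : B.Nonempty) : ∑ r, ‖bt B r‖ ^ 2 = M / B.card := by
  classical
  have hB0 : 0 < B.card := card_pos.2 hB
  have hBr : (B.card : ℝ) ≠ 0 := by exact_mod_cast hB0.ne'
  have h := planch' (fun x => if x ∈ B then (1 : ℂ) / B.card else 0)
  have e1 : ∀ r : ZMod M, ∑ x, (if x ∈ B then (1 : ℂ) / B.card else 0) * (ps (-(x * r)) : ℂ) =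
      bt B r := by
    intro r
    unfold bt
    rw [sum_div, ← sum_filter_add_sum_filter_not univ (fun x => x ∈ B)]
    have h1 : univ.filter (fun x => x ∈ B) = B := by
      ext x
      simp
    rw [h1]
    have h2 : ∑ x ∈ univ.filter (fun x => ¬ x ∈ B),
        (if x ∈ B then (1 : ℂ) / B.card else 0) * (ps (-(x * r)) : ℂ) = 0 := by
      apply sum_eq_zero
      intro x hx
      rw [if_neg (mem_filter.1 hx).2, zero_mul]
    rw [h2, add_zero]
    refine sum_congr rfl fun x hx => ?_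
    rw [if_pos hx, mul_comm x r]
    ring
  simp only [e1] at h
  rw [h]
  have e2 : ∑ x : ZMod M, ‖(if x ∈ B then (1 : ℂ) / B.card else 0)‖ ^ 2 = 1 / B.card := by
    have e3 : ∀ x : ZMod M, ‖(if x ∈ B then (1 : ℂ) / B.card else 0)‖ ^ 2 =
        if x ∈ B then (1 / (B.card : ℝ)) ^ 2 else 0 := by
      intro x
      split_ifs
      · rw [norm_div, norm_one, Complex.norm_natCast]
      · rw [norm_zero]
        norm_num
    simp only [e3]
    rw [← sum_filter]
    have h1 : univ.filter (fun x => x ∈ B) = B := by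
      ext x
      simp
    rw [h1, sum_const, nsmul_eq_mul]
    field_simp
  rw [e2]
  ring

/-- the average over the translates by `B` -/
noncomputable def sm (B : Finset (ZMod M)) (f : ZMod M → ℝ) (x : ZMod M) : ℝ :=
  (∑ t ∈ B, f (x + t)) / B.card

theorem ft_sm (B : Finset (ZMod M)) (f : ZMod M → ℝ) (r : ZMod M) :
    ft (fun x => (sm B f x : ℂ)) r = bt B r * ft (fun x => (f x : ℂ)) r := by
  have e : (fun x => (sm B f x : ℂ)) = fun x => (∑ t ∈ B, (f (x + t) : ℂ)) / B.card := by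
    funext x
    unfold sm
    push_cast
    rfl
  have e2 : ft (fun x => (sm B f x : ℂ)) r =
      (∑ t ∈ B, ft (fun x => (f (x + t) : ℂ)) r) / B.card := by
    rw [e]
    unfold ft
    rw [sum_comm, sum_div]
    refine sum_congr rfl fun x _ => ?_
    rw [← sum_mul, div_mul_eq_mul_div]
  rw [e2]
  have e3 : ∀ t : ZMod M, ft (fun x => (f (x + t) : ℂ)) r =
      ps (-(r * t)) * ft (fun x => (f x : ℂ)) r := fun t => ft_shift (fun x => (f x : ℂ)) t r
  simp only [e3]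
  unfold bt
  rw [← sum_mul]
  ring

omit [NeZero M] in
theorem sm_nonneg (B : Finset (ZMod M)) {f : ZMod M → ℝ} (hf : ∀ x, 0 ≤ f x) (x : ZMod M) :
    0 ≤ sm B f x :=
  div_nonneg (sum_nonneg fun _ _ => hf _) (Nat.cast_nonneg _)

omit [NeZero M] in
theorem sm_le_one (B : Finset (ZMod M)) {f : ZMod M → ℝ} (hf : ∀ x, f x ≤ 1) (x : ZMod M) :
    sm B f x ≤ 1 := by
  unfold sm
  rcases Nat.eq_zero_or_pos B.card with h | h
  · rw [h, Nat.cast_zero, div_zero]
    exact zero_le_one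
  · rw [div_le_one (by exact_mod_cast h)]
    refine (sum_le_sum fun t _ => hf _).trans (le_of_eq ?_)
    rw [sum_const, nsmul_eq_mul, mul_one]

theorem sum_sm (B : Finset (ZMod M)) (hB : B.Nonempty) (f : ZMod M → ℝ) :
    ∑ x, sm B f x = ∑ x, f x := by
  have hB0 : (B.card : ℝ) ≠ 0 := by
    have := card_pos.2 hB
    exact_mod_cast this.ne'
  unfold sm
  rw [← sum_div, sum_comm]
  have e : ∀ t : ZMod M, ∑ x, f (x + t) = ∑ x, f x := fun t =>
    Equiv.sum_comp (Equiv.addRight t) f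
  simp only [e]
  rw [sum_const, nsmul_eq_mul]
  field_simp

end Pool.Agent.V11161.BF
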