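import Mathlib
import Pool.Agent.V11161.BF.Bohr

set_option autoImplicit false

/-!
# The choice of the scale
-/

namespace Pool.Agent.V11161.BF

open Finset ComplexConjugate

/-- the thresholds -/
noncomputable def tau (ρ : ℝ) (K : ℕ) : ℕ → ℝ
  | 0 => 1
  | i + 1 => min (tau ρ K i) (ρ * (1 / (K : ℝ) ^ ⌈1 / (tau ρ K i) ^ 2⌉₊))

theorem tau_pos {ρ : ℝ} (hρ : 0 < ρ) {K : ℕ} (hK : 1 ≤ K) (i : ℕ) : 0 < tau ρ K i := by
  have hK0 : (0 : ℝ) < K := by exact_mod_cast hK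
  induction i with
  | zero => exact one_pos
  | succ i ih =>
    unfold tau
    exact lt_min ih (by positivity)

theorem tau_succ_le (ρ : ℝ) (K : ℕ) (i : ℕ) : tau ρ K (i + 1) ≤ tau ρ K i := by
  conv_lhs => unfold tau
  exact min_le_left _ _

theorem tau_succ_le' (ρ : ℝ) (K : ℕ) (i : ℕ) :
    tau ρ K (i + 1) ≤ ρ * (1 / (K : ℝ) ^ ⌈1 / (tau ρ K i) ^ 2⌉₊) := by
  conv_lhs => unfold tau
  exact min_le_right _ _

open Classical in
/-- **the choice of the scale** -/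
theorem scales (ρ κ : ℝ) (hρ : 0 < ρ) (hκ : 0 < κ) : ∃ (d : ℕ) (b : ℝ), 0 < b ∧ b ≤ 1 ∧
    ∀ (M : ℕ) [NeZero M] (f : ZMod M → ℂ), ∑ x, ‖f x‖ ^ 2 ≤ M →
    ∃ (Γ Δ : Finset (ZMod M)) (b' : ℝ), b ≤ b' ∧ b' ≤ 1 ∧ Γ.card ≤ d ∧
      b' * M ≤ ((bohr Γ ρ).card : ℝ) ∧ ∑ r ∈ Δ, ‖ft f r‖ ^ 2 ≤ (κ * M) ^ 2 ∧ Disjoint Γ Δ ∧
      ∀ r, r ∉ Γ → r ∉ Δ → ‖ft f r‖ ≤ ρ * b' * M := by
  obtain ⟨K, hK1, hK⟩ := bohr_card ρ hρ
  have hK0 : (0 : ℝ) < K := by exact_mod_cast hK1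
  have hK1r : (1 : ℝ) ≤ K := by exact_mod_cast hK1
  set τ : ℕ → ℝ := tau ρ K with hτ
  have hτ0 : ∀ i, 0 < τ i := tau_pos hρ hK1
  set dd : ℕ → ℕ := fun i => ⌈1 / (τ i) ^ 2⌉₊ with hdd
  set I : ℕ := ⌈1 / κ ^ 2⌉₊ + 1 with hI
  set d : ℕ := ∑ i ∈ range I, dd i with hd
  refine ⟨d, 1 / (K : ℝ) ^ d, by positivity, ?_, ?_⟩
  · rw [div_le_one (by positivity)]
    exact one_le_pow₀ hK1r
  intro M _ f hf
  have hM0 : (0 : ℝ) < M := by
    have := NeZero.pos M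
    exact_mod_cast this
  have htot : ∑ r, ‖ft f r‖ ^ 2 ≤ (M : ℝ) ^ 2 := by
    rw [planch, sq]
    exact mul_le_mul_of_nonneg_left hf hM0.le
  set Γ : ℕ → Finset (ZMod M) := fun i => univ.filter fun r => τ i * M ≤ ‖ft f r‖ with hΓ
  have hΓsub : ∀ i, Γ i ⊆ Γ (i + 1) := by
    intro i r hr
    rw [hΓ, mem_filter] at hr ⊢
    refine ⟨mem_univ _, le_trans ?_ hr.2⟩
    exact mul_le_mul_of_nonneg_right (tau_succ_le ρ K i) hM0.le
  set E : ℕ → ℝ := fun i => ∑ r ∈ Γ i, ‖ft f r‖ ^ 2 with hE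
  have hEle : ∀ i, E i ≤ (M : ℝ) ^ 2 := fun i =>
    (sum_le_sum_of_subset_of_nonneg (filter_subset _ _) fun _ _ _ => sq_nonneg _).trans htot
  have hE0 : ∀ i, 0 ≤ E i := fun i => sum_nonneg fun _ _ => sq_nonneg _
  have hmid : ∀ i, ∑ r ∈ Γ (i + 1) \ Γ i, ‖ft f r‖ ^ 2 = E (i + 1) - E i := by
    intro i
    have := sum_sdiff (f := fun r => ‖ft f r‖ ^ 2) (hΓsub i)
    rw [hE]
    linarith
  have hex : ∃ i ∈ range I, ∑ r ∈ Γ (i + 1) \ Γ i, ‖ft f r‖ ^ 2 ≤ (κ * M) ^ 2 := by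
    apply exists_le_of_sum_le (nonempty_range_iff.2 (by omega : I ≠ 0))
    simp only [hmid]
    rw [sum_range_sub, sum_const, card_range, nsmul_eq_mul]
    have h1 := hEle I
    have h2 := hE0 0
    have h3 : (1 : ℝ) ≤ I * κ ^ 2 := by
      have h4 : 1 / κ ^ 2 ≤ (I : ℝ) := by
        rw [hI]
        push_cast
        have := Nat.le_ceil (1 / κ ^ 2)
        linarith
      rw [div_le_iff₀ (by positivity)] at h4
      exact h4
    have h5 : (M : ℝ) ^ 2 ≤ (I : ℝ) * (κ * M) ^ 2 := by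
      rw [mul_pow, ← mul_assoc]
      exact le_mul_of_one_le_left (by positivity) h3
    linarith
  obtain ⟨i, hi, hiE⟩ := hex
  have hcard : (Γ i).card ≤ dd i := by
    have h1 : ((Γ i).card : ℝ) * (τ i * M) ^ 2 ≤ (M : ℝ) ^ 2 := by
      refine le_trans ?_ (hEle i)
      rw [hE, ← nsmul_eq_mul]
      refine card_nsmul_le_sum _ _ _ fun r hr => ?_
      exact pow_le_pow_left₀ (mul_nonneg (hτ0 i).le hM0.le) (mem_filter.1 hr).2 2
    have h2 : ((Γ i).card : ℝ) ≤ 1 / (τ i) ^ 2 := by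
      rw [le_div_iff₀ (pow_pos (hτ0 i) 2)]
      rw [mul_pow, ← mul_assoc] at h1
      have h3 : (0 : ℝ) < (M : ℝ) ^ 2 := by positivity
      nlinarith
    have h3 : ((Γ i).card : ℝ) ≤ (dd i : ℝ) := h2.trans (Nat.le_ceil _)
    exact_mod_cast h3
  have hddd : dd i ≤ d := by
    rw [hd]
    exact single_le_sum (f := dd) (fun _ _ => Nat.zero_le _) hi
  refine ⟨Γ i, Γ (i + 1) \ Γ i, 1 / (K : ℝ) ^ (dd i), ?_, ?_, hcard.trans hddd, ?_, hiE,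
    disjoint_sdiff, ?_⟩
  · apply one_div_le_one_div_of_le (by positivity)
    exact pow_le_pow_right₀ hK1r hddd
  · rw [div_le_one (by positivity)]
    exact one_le_pow₀ hK1r
  · refine le_trans ?_ (hK M (Γ i))
    rw [one_div, inv_mul_eq_div]
    apply div_le_div_of_nonneg_left hM0.le (by positivity)
    exact pow_le_pow_right₀ hK1r hcard
  · intro r h1 h2
    have h3 : r ∉ Γ (i + 1) := fun h => h2 (mem_sdiff.2 ⟨h, h1⟩)
    have h4 : ‖ft f r‖ < τ (i + 1) * M := by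
      by_contra hcon
      exact h3 (mem_filter.2 ⟨mem_univ _, not_lt.1 hcon⟩)
    refine h4.le.trans ?_
    exact mul_le_mul_of_nonneg_right (tau_succ_le' ρ K i) hM0.le

end Pool.Agent.V11161.BF
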