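import Mathlib
import Pool.Agent.V11161.BF.Scale

set_option autoImplicit false

/-!
# The number of the configurations `x, x + h_1, …, x + h_k` with `h_i` in a Bohr set
-/

namespace Pool.Agent.V11161.BF

open Finset ComplexConjugate

/-- the properties of the chosen scale -/
structure Good {M : ℕ} [NeZero M] (f : ZMod M → ℝ) (ρ κ : ℝ) (Γ Δ : Finset (ZMod M)) (b : ℝ) :
    Prop where
  f0 : ∀ x, 0 ≤ f x
  f1 : ∀ x, f x ≤ 1
  ρ0 : 0 < ρ
  κ0 : 0 < κ
  b0 : 0 < b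
  b1 : b ≤ 1
  hB : b * M ≤ ((bohr Γ ρ).card : ℝ)
  hΔ : ∑ r ∈ Δ, ‖ft (fun x => (f x : ℂ)) r‖ ^ 2 ≤ (κ * M) ^ 2
  hdis : Disjoint Γ Δ
  hsm : ∀ r, r ∉ Γ → r ∉ Δ → ‖ft (fun x => (f x : ℂ)) r‖ ≤ ρ * b * M

variable {M : ℕ} [NeZero M] {f : ZMod M → ℝ} {ρ κ b : ℝ} {Γ Δ : Finset (ZMod M)}

theorem M_pos : (0 : ℝ) < M := by
  have := NeZero.pos M
  exact_mod_cast this

theorem sum_sq_le (F : ZMod M → ℝ) (hF : ∀ x, |F x| ≤ 1) :
    ∑ r, ‖ft (fun x => (F x : ℂ)) r‖ ^ 2 ≤ (M : ℝ) ^ 2 := by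
  rw [planch, sq]
  apply mul_le_mul_of_nonneg_left _ (Nat.cast_nonneg _)
  calc ∑ x : ZMod M, ‖(F x : ℂ)‖ ^ 2 ≤ ∑ _x : ZMod M, (1 : ℝ) := by
        refine sum_le_sum fun x _ => ?_
        rw [Complex.norm_real, Real.norm_eq_abs]
        exact pow_le_one₀ (abs_nonneg _) (hF x)
    _ = M := by
        rw [sum_const, card_univ, ZMod.card, nsmul_eq_mul, mul_one]

/-- splitting a sum over the frequencies -/
theorem split3 (hdis : Disjoint Γ Δ) {E : Type} [AddCommMonoid E] (a : ZMod M → E) :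
    ∑ r, a r = (∑ r ∈ Γ, a r + ∑ r ∈ Δ, a r) +
      ∑ r ∈ univ.filter (fun r => r ∉ Γ ∧ r ∉ Δ), a r := by
  classical
  rw [← sum_union hdis, ← sum_filter_add_sum_filter_not univ (fun r => r ∉ Γ ∧ r ∉ Δ), add_comm]
  congr 1
  refine sum_congr ?_ fun _ _ => rfl
  ext r
  simp only [mem_filter, mem_univ, true_and, mem_union]
  tauto

namespace Good

theorem abs_f (h : Good f ρ κ Γ Δ b) (x : ZMod M) : |f x| ≤ 1 := by
  rw [abs_of_nonneg (h.f0 x)]
  exact h.f1 x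

theorem card_pos (h : Good f ρ κ Γ Δ b) : (0 : ℝ) < ((bohr Γ ρ).card : ℝ) :=
  lt_of_lt_of_le (mul_pos h.b0 M_pos) h.hB

theorem ne (h : Good f ρ κ Γ Δ b) : (bohr Γ ρ).Nonempty := ⟨0, zero_mem_bohr h.ρ0.le⟩

/-- the average is almost invariant -/
theorem shift (h : Good f ρ κ Γ Δ b) {t : ZMod M} (ht : t ∈ bohr Γ ρ) :
    ∑ x, |sm (bohr Γ ρ) f (x + t) - sm (bohr Γ ρ) f x| ≤ (3 * ρ + 2 * κ) * M := by
  set B := bohr Γ ρ with hB
  set F : ZMod M → ℂ := ft (fun x => (f x : ℂ)) with hF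
  have hM := M_pos (M := M)
  have hBp : (0 : ℝ) < B.card := h.card_pos
  have hFt : ∑ r, ‖F r‖ ^ 2 ≤ (M : ℝ) ^ 2 := sum_sq_le f h.abs_f
  -- the transform of the difference
  have e1 : ∀ r : ZMod M, ft (fun x => ((sm B f (x + t) - sm B f x : ℝ) : ℂ)) r =
      ((ps (-(r * t)) : ℂ) - 1) * (bt B r * F r) := by
    intro r
    have e2 : ft (fun x => ((sm B f (x + t) - sm B f x : ℝ) : ℂ)) r =
        ft (fun x => ((sm B f (x + t) : ℝ) : ℂ)) r - ft (fun x => ((sm B f x : ℝ) : ℂ)) r := by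
      unfold ft
      rw [← sum_sub_distrib]
      refine sum_congr rfl fun x _ => ?_
      push_cast
      ring
    rw [e2, ft_shift (fun x => ((sm B f x : ℝ) : ℂ)) t r, ft_sm]
    ring
  have hpl := planch (fun x => ((sm B f (x + t) - sm B f x : ℝ) : ℂ))
  simp only [e1] at hpl
  have hb : ∀ r, ‖((ps (-(r * t)) : ℂ) - 1)‖ ≤ 2 := by
    intro r
    refine (norm_sub_le _ _).trans ?_
    rw [ps_norm, norm_one]
    norm_num
  have hsum : ∑ r, ‖((ps (-(r * t)) : ℂ) - 1) * (bt B r * F r)‖ ^ 2 ≤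
      ((3 * ρ + 2 * κ) * M) ^ 2 := by
    rw [split3 h.hdis]
    have h1 : ∑ r ∈ Γ, ‖((ps (-(r * t)) : ℂ) - 1) * (bt B r * F r)‖ ^ 2 ≤ ρ ^ 2 * (M : ℝ) ^ 2 := by
      calc ∑ r ∈ Γ, ‖((ps (-(r * t)) : ℂ) - 1) * (bt B r * F r)‖ ^ 2 ≤
            ∑ r ∈ Γ, ρ ^ 2 * ‖F r‖ ^ 2 := by
            refine sum_le_sum fun r hr => ?_
            rw [norm_mul, norm_mul, mul_pow]
            have h2 : ‖((ps (-(r * t)) : ℂ) - 1)‖ ≤ ρ := by
              rw [ps_sub_one_neg]
              exact mem_bohr.1 ht r hr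
            have h3 : ‖bt B r‖ * ‖F r‖ ≤ ‖F r‖ :=
              mul_le_of_le_one_left (norm_nonneg _) (bt_norm B r)
            have h4 := h.ρ0
            gcongr
        _ ≤ ∑ r, ρ ^ 2 * ‖F r‖ ^ 2 :=
            sum_le_sum_of_subset_of_nonneg (subset_univ _) fun _ _ _ => by positivity
        _ ≤ _ := by
            rw [← mul_sum]
            exact mul_le_mul_of_nonneg_left hFt (sq_nonneg _)
    have h2 : ∑ r ∈ Δ, ‖((ps (-(r * t)) : ℂ) - 1) * (bt B r * F r)‖ ^ 2 ≤ 4 * (κ * M) ^ 2 := by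
      calc ∑ r ∈ Δ, ‖((ps (-(r * t)) : ℂ) - 1) * (bt B r * F r)‖ ^ 2 ≤
            ∑ r ∈ Δ, 4 * ‖F r‖ ^ 2 := by
            refine sum_le_sum fun r hr => ?_
            rw [norm_mul, norm_mul, mul_pow]
            have h3 : ‖bt B r‖ * ‖F r‖ ≤ ‖F r‖ :=
              mul_le_of_le_one_left (norm_nonneg _) (bt_norm B r)
            have h4 : ‖((ps (-(r * t)) : ℂ) - 1)‖ ^ 2 ≤ 4 := by
              have := pow_le_pow_left₀ (norm_nonneg _) (hb r) 2
              linarith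
            gcongr
        _ ≤ _ := by
            rw [← mul_sum]
            exact mul_le_mul_of_nonneg_left h.hΔ (by norm_num)
    have h3 : ∑ r ∈ univ.filter (fun r => r ∉ Γ ∧ r ∉ Δ),
        ‖((ps (-(r * t)) : ℂ) - 1) * (bt B r * F r)‖ ^ 2 ≤ 4 * ρ ^ 2 * (M : ℝ) ^ 2 := by
      calc ∑ r ∈ univ.filter (fun r => r ∉ Γ ∧ r ∉ Δ),
            ‖((ps (-(r * t)) : ℂ) - 1) * (bt B r * F r)‖ ^ 2 ≤
            ∑ r ∈ univ.filter (fun r => r ∉ Γ ∧ r ∉ Δ), 4 * (ρ * b * M) ^ 2 * ‖bt B r‖ ^ 2 := by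
            refine sum_le_sum fun r hr => ?_
            obtain ⟨-, h4, h5⟩ := mem_filter.1 hr
            rw [norm_mul, norm_mul, mul_pow, mul_pow]
            have h6 : ‖F r‖ ≤ ρ * b * M := h.hsm r h4 h5
            have h7 : ‖((ps (-(r * t)) : ℂ) - 1)‖ ^ 2 ≤ 4 := by
              have := pow_le_pow_left₀ (norm_nonneg _) (hb r) 2
              linarith
            have h8 : ‖F r‖ ^ 2 ≤ (ρ * b * M) ^ 2 := pow_le_pow_left₀ (norm_nonneg _) h6 2
            calc ‖((ps (-(r * t)) : ℂ) - 1)‖ ^ 2 * (‖bt B r‖ ^ 2 * ‖F r‖ ^ 2) ≤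
                  4 * (‖bt B r‖ ^ 2 * (ρ * b * M) ^ 2) := by gcongr
              _ = _ := by ring
        _ ≤ ∑ r, 4 * (ρ * b * M) ^ 2 * ‖bt B r‖ ^ 2 :=
            sum_le_sum_of_subset_of_nonneg (subset_univ _) fun _ _ _ => by positivity
        _ = 4 * (ρ * b * M) ^ 2 * (M / B.card) := by rw [← mul_sum, bt_sq B h.ne]
        _ ≤ 4 * ρ ^ 2 * (M : ℝ) ^ 2 := by
            rw [mul_div_assoc', div_le_iff₀ hBp]
            have h9 := h.hB
            have h10 : b * (b * M) ≤ 1 * B.card :=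
              mul_le_mul h.b1 h9 (mul_pos h.b0 hM).le zero_le_one
            have h11 : 0 ≤ 4 * ρ ^ 2 * (M : ℝ) ^ 2 := by positivity
            calc 4 * (ρ * b * M) ^ 2 * M = 4 * ρ ^ 2 * (M : ℝ) ^ 2 * (b * (b * M)) := by ring
              _ ≤ 4 * ρ ^ 2 * (M : ℝ) ^ 2 * (1 * B.card) := mul_le_mul_of_nonneg_left h10 h11
              _ = _ := by ring
    have h4 := h.ρ0
    have h5 := h.κ0
    have h6 : 0 ≤ ρ * κ * (M : ℝ) ^ 2 := by positivity
    have h7 : 0 ≤ ρ ^ 2 * (M : ℝ) ^ 2 := by positivity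
    nlinarith
  have hx : ∑ x, (|sm B f (x + t) - sm B f x|) ^ 2 ≤ (3 * ρ + 2 * κ) ^ 2 * M := by
    have e3 : ∑ x, ‖((sm B f (x + t) - sm B f x : ℝ) : ℂ)‖ ^ 2 =
        ∑ x, (|sm B f (x + t) - sm B f x|) ^ 2 := by
      refine sum_congr rfl fun x _ => ?_
      rw [Complex.norm_real, Real.norm_eq_abs]
    rw [e3] at hpl
    rw [hpl] at hsum
    have h1 : (M : ℝ) * ∑ x, (|sm B f (x + t) - sm B f x|) ^ 2 ≤
        M * ((3 * ρ + 2 * κ) ^ 2 * M) := by
      refine hsum.trans (le_of_eq (by ring))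
    exact le_of_mul_le_mul_left h1 hM
  have h4 := h.ρ0
  have h5 := h.κ0
  have hs := Real.mul_self_sqrt hM.le
  have h6 := cs univ (fun x => |sm B f (x + t) - sm B f x|) (fun _ => 1)
    ((3 * ρ + 2 * κ) * Real.sqrt M) (Real.sqrt M) (by positivity) (by positivity) (by
      rw [mul_pow, Real.sq_sqrt hM.le]
      exact hx) (by
      rw [Real.sq_sqrt hM.le, sum_const, card_univ, ZMod.card, nsmul_eq_mul]
      norm_num)
  simp only [mul_one] at h6
  refine h6.trans (le_of_eq ?_)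
  rw [mul_assoc, hs]

/-- the difference between the function and the average is uniform -/
theorem unif (h : Good f ρ κ Γ Δ b) (F : ZMod M → ℝ) (hF : ∀ x, |F x| ≤ 1) :
    ∑ t ∈ bohr Γ ρ, |∑ x, (f (x + t) - sm (bohr Γ ρ) f (x + t)) * F x| ≤
      (3 * ρ + 2 * κ) * ((bohr Γ ρ).card : ℝ) * M := by
  classical
  set B := bohr Γ ρ with hB
  set f' : ZMod M → ℂ := ft (fun x => (f x : ℂ)) with hf'
  set F' : ZMod M → ℂ := ft (fun x => (F x : ℂ)) with hF'
  have hM := M_pos (M := M)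
  have hBp : (0 : ℝ) < B.card := h.card_pos
  have hft : ∑ r, ‖f' r‖ ^ 2 ≤ (M : ℝ) ^ 2 := sum_sq_le f h.abs_f
  have hFt : ∑ r, ‖F' r‖ ^ 2 ≤ (M : ℝ) ^ 2 := sum_sq_le F hF
  have hρ := h.ρ0
  have hκ := h.κ0
  have hb0 := h.b0
  set w : ZMod M → ℂ := fun x => ((f x - sm B f x : ℝ) : ℂ) with hw
  have ew : ∀ r, ft w r = (1 - bt B r) * f' r := by
    intro r
    have e2 : ft w r = ft (fun x => (f x : ℂ)) r - ft (fun x => ((sm B f x : ℝ) : ℂ)) r := by
      unfold ft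
      rw [← sum_sub_distrib]
      refine sum_congr rfl fun x _ => ?_
      rw [hw]
      push_cast
      ring
    rw [e2, ft_sm]
    ring
  set c : ZMod M → ℂ := fun r => ft w r * conj (F' r) with hc
  have hcn : ∀ r, ‖c r‖ = ‖1 - bt B r‖ * ‖f' r‖ * ‖F' r‖ := by
    intro r
    rw [hc]
    simp only
    rw [norm_mul, RCLike.norm_conj, ew, norm_mul]
  have hbt2 : ∀ r, ‖1 - bt B r‖ ≤ 2 := by
    intro r
    refine (norm_sub_le _ _).trans ?_
    have := bt_norm B r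
    rw [norm_one]
    linarith
  set c' : ZMod M → ℂ := fun r => if r ∉ Γ ∧ r ∉ Δ then c r else 0 with hc'
  have hcorr : ∀ t : ZMod M, (M : ℝ) * |∑ x, (f (x + t) - sm B f (x + t)) * F x| ≤
      ρ * M * M + 2 * (κ * M) * M + ‖∑ r, c' r * ps (-(r * t))‖ := by
    intro t
    have h1 := corr w (fun x => (F x : ℂ)) t
    have h2 : ∑ y, w (y + t) * conj ((F y : ℝ) : ℂ) =
        ((∑ x, (f (x + t) - sm B f (x + t)) * F x : ℝ) : ℂ) := by
      push_cast
      refine sum_congr rfl fun x _ => ?_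
      rw [hw, Complex.conj_ofReal]
      push_cast
      rfl
    rw [h2] at h1
    have h3 : (M : ℝ) * |∑ x, (f (x + t) - sm B f (x + t)) * F x| =
        ‖∑ r, c r * ps (-(r * t))‖ := by
      have h4 : ∑ r, c r * ps (-(r * t)) =
          ∑ r, ft w r * conj (ft (fun x => (F x : ℂ)) r) * ps (-(r * t)) := rfl
      rw [h4, h1, norm_mul, Complex.norm_natCast, Complex.norm_real, Real.norm_eq_abs]
    rw [h3, split3 h.hdis (fun r => c r * ps (-(r * t)))]
    have h5 : ∑ r ∈ univ.filter (fun r => r ∉ Γ ∧ r ∉ Δ), c r * ps (-(r * t)) =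
        ∑ r, c' r * ps (-(r * t)) := by
      rw [sum_filter]
      refine sum_congr rfl fun r _ => ?_
      simp only [hc']
      split_ifs
      · rfl
      · rw [zero_mul]
    rw [h5]
    have h6 : ‖∑ r ∈ Γ, c r * ps (-(r * t))‖ ≤ ρ * M * M := by
      calc ‖∑ r ∈ Γ, c r * ps (-(r * t))‖ ≤ ∑ r ∈ Γ, ‖c r * ps (-(r * t))‖ := norm_sum_le _ _
        _ ≤ ∑ r ∈ Γ, (ρ * ‖f' r‖) * ‖F' r‖ := by
            refine sum_le_sum fun r hr => ?_
            rw [norm_mul, ps_norm, mul_one, hcn]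
            have := bt_close hρ.le hr
            gcongr
        _ ≤ (ρ * M) * M := by
            refine cs Γ (fun r => ρ * ‖f' r‖) (fun r => ‖F' r‖) (ρ * M) M (by positivity)
              (by positivity) ?_ ?_
            · simp only [mul_pow]
              rw [← mul_sum]
              apply mul_le_mul_of_nonneg_left _ (sq_nonneg _)
              exact (sum_le_sum_of_subset_of_nonneg (subset_univ _) fun _ _ _ =>
                sq_nonneg _).trans hft
            · exact (sum_le_sum_of_subset_of_nonneg (subset_univ _) fun _ _ _ =>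
                sq_nonneg _).trans hFt
    have h7 : ‖∑ r ∈ Δ, c r * ps (-(r * t))‖ ≤ 2 * (κ * M) * M := by
      calc ‖∑ r ∈ Δ, c r * ps (-(r * t))‖ ≤ ∑ r ∈ Δ, ‖c r * ps (-(r * t))‖ := norm_sum_le _ _
        _ ≤ ∑ r ∈ Δ, (2 * ‖f' r‖) * ‖F' r‖ := by
            refine sum_le_sum fun r hr => ?_
            rw [norm_mul, ps_norm, mul_one, hcn]
            have := hbt2 r
            gcongr
        _ ≤ (2 * (κ * M)) * M := by
            refine cs Δ (fun r => 2 * ‖f' r‖) (fun r => ‖F' r‖) (2 * (κ * M)) M (by positivity)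
              (by positivity) ?_ ?_
            · simp only [mul_pow]
              rw [← mul_sum]
              have := h.hΔ
              rw [mul_pow] at this
              exact mul_le_mul_of_nonneg_left this (by norm_num)
            · exact (sum_le_sum_of_subset_of_nonneg (subset_univ _) fun _ _ _ =>
                sq_nonneg _).trans hFt
    refine (norm_add_le _ _).trans ?_
    refine add_le_add ((norm_add_le _ _).trans (add_le_add h6 h7)) le_rfl
  -- the third part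
  have hT : ∑ t ∈ B, ‖∑ r, c' r * ps (-(r * t))‖ ≤ 2 * ρ * B.card * (M : ℝ) ^ 2 := by
    have h1 : ∑ t, ‖∑ r, c' r * ps (-(r * t))‖ ^ 2 ≤ 4 * (ρ * b * M) ^ 2 * M * (M : ℝ) ^ 2 := by
      rw [planch' c']
      have h2 : ∑ r, ‖c' r‖ ^ 2 ≤ ∑ r, 4 * (ρ * b * M) ^ 2 * ‖F' r‖ ^ 2 := by
        refine sum_le_sum fun r _ => ?_
        simp only [hc']
        split_ifs with hr
        · rw [hcn, mul_pow, mul_pow]
          have h3 := h.hsm r hr.1 hr.2
          have h4 : ‖f' r‖ ^ 2 ≤ (ρ * b * M) ^ 2 := pow_le_pow_left₀ (norm_nonneg _) h3 2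
          have h5 : ‖1 - bt B r‖ ^ 2 ≤ 4 := by
            have := pow_le_pow_left₀ (norm_nonneg _) (hbt2 r) 2
            linarith
          gcongr
        · rw [norm_zero, zero_pow two_ne_zero]
          positivity
      rw [← mul_sum] at h2
      calc (M : ℝ) * ∑ r, ‖c' r‖ ^ 2 ≤ M * (4 * (ρ * b * M) ^ 2 * (M : ℝ) ^ 2) := by
            apply mul_le_mul_of_nonneg_left _ hM.le
            refine h2.trans (mul_le_mul_of_nonneg_left hFt (by positivity))
        _ = _ := by ring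
    have h2 : ∑ t ∈ B, ‖∑ r, c' r * ps (-(r * t))‖ ^ 2 ≤
        (2 * ρ * Real.sqrt B.card * (M : ℝ) ^ 2) ^ 2 := by
      refine (sum_le_sum_of_subset_of_nonneg (subset_univ _) fun _ _ _ => sq_nonneg _).trans
        (h1.trans ?_)
      have e9 : (2 * ρ * Real.sqrt B.card * (M : ℝ) ^ 2) ^ 2 = 4 * ρ ^ 2 * (M : ℝ) ^ 4 * B.card := by
        rw [mul_pow, mul_pow (2 * ρ), Real.sq_sqrt hBp.le]
        ring
      rw [e9]
      have h9 := h.hB
      have h10 : b * (b * M) ≤ 1 * B.card :=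
        mul_le_mul h.b1 h9 (mul_pos h.b0 hM).le zero_le_one
      calc 4 * (ρ * b * M) ^ 2 * M * (M : ℝ) ^ 2 = 4 * ρ ^ 2 * (M : ℝ) ^ 4 * (b * (b * M)) := by ring
        _ ≤ 4 * ρ ^ 2 * (M : ℝ) ^ 4 * (1 * B.card) :=
            mul_le_mul_of_nonneg_left h10 (by positivity)
        _ = _ := by rw [one_mul]
    have h3 := cs B (fun t => ‖∑ r, c' r * ps (-(r * t))‖) (fun _ => 1)
      (2 * ρ * Real.sqrt B.card * (M : ℝ) ^ 2) (Real.sqrt B.card) (by positivity) (by positivity)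
      h2 (by
        rw [Real.sq_sqrt hBp.le, sum_const, nsmul_eq_mul]
        norm_num)
    simp only [mul_one] at h3
    refine h3.trans (le_of_eq ?_)
    have := Real.mul_self_sqrt hBp.le
    calc 2 * ρ * Real.sqrt B.card * (M : ℝ) ^ 2 * Real.sqrt B.card =
          2 * ρ * (Real.sqrt B.card * Real.sqrt B.card) * (M : ℝ) ^ 2 := by ring
      _ = _ := by rw [this]
  have hfin : (M : ℝ) * ∑ t ∈ B, |∑ x, (f (x + t) - sm B f (x + t)) * F x| ≤
      M * ((3 * ρ + 2 * κ) * (B.card : ℝ) * M) := by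
    rw [mul_sum]
    refine (sum_le_sum fun t _ => hcorr t).trans ?_
    rw [sum_add_distrib, sum_const, nsmul_eq_mul]
    calc (B.card : ℝ) * (ρ * M * M + 2 * (κ * M) * M) + ∑ t ∈ B, ‖∑ r, c' r * ps (-(r * t))‖ ≤
          (B.card : ℝ) * (ρ * M * M + 2 * (κ * M) * M) + 2 * ρ * B.card * (M : ℝ) ^ 2 :=
          add_le_add le_rfl hT
      _ = _ := by ring
  exact le_of_mul_le_mul_left hfin hM

end Good

end Pool.Agent.V11161.BF
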