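import Mathlib
import Pool.Agent.V11161.BF.Key

set_option autoImplicit false

/-!
# Almost all `h` in `B ^ k` have many `x` with `x, x + h_1, …, x + h_k` in the set
-/

namespace Pool.Agent.V11161.BF

open Finset

theorem sum_pi_succ {α : Type} {k : ℕ} (B : Finset α) (φ : (Fin (k + 1) → α) → ℝ) :
    ∑ h ∈ Fintype.piFinset (fun _ : Fin (k + 1) => B), φ h =
      ∑ a ∈ B, ∑ h ∈ Fintype.piFinset (fun _ : Fin k => B), φ (Fin.cons a h) := by
  rw [← sum_product']
  refine sum_nbij' (fun h => (h 0, Fin.tail h)) (fun p => Fin.cons p.1 p.2) ?_ ?_ ?_ ?_ ?_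
  · intro h hh
    rw [Fintype.mem_piFinset] at hh
    rw [mem_product, Fintype.mem_piFinset]
    exact ⟨hh 0, fun i => hh i.succ⟩
  · rintro ⟨a, h⟩ hp
    rw [mem_product, Fintype.mem_piFinset] at hp
    rw [Fintype.mem_piFinset]
    intro i
    refine Fin.cases ?_ (fun j => ?_) i
    · exact hp.1
    · exact hp.2 j
  · intro h _
    exact Fin.cons_self_tail h
  · rintro ⟨a, h⟩ _
    simp
  · intro h _
    simp only
    rw [Fin.cons_self_tail]

theorem abs_pow_sub (k : ℕ) (a c : ℝ) (ha : |a| ≤ 1) (hc : |c| ≤ 1) :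
    |a ^ k - c ^ k| ≤ k * |a - c| := by
  induction k with
  | zero => simp
  | succ k ih =>
    have e : a ^ (k + 1) - c ^ (k + 1) = a ^ k * (a - c) + (a ^ k - c ^ k) * c := by ring
    rw [e]
    refine (abs_add_le _ _).trans ?_
    rw [abs_mul, abs_mul, abs_pow]
    have h1 : |a| ^ k ≤ 1 := pow_le_one₀ (abs_nonneg _) ha
    have h2 : |a| ^ k * |a - c| ≤ 1 * |a - c| := mul_le_mul_of_nonneg_right h1 (abs_nonneg _)
    have h3 : |a ^ k - c ^ k| * |c| ≤ (k * |a - c|) * 1 :=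
      mul_le_mul ih hc (abs_nonneg _) (by positivity)
    push_cast
    linarith

variable {M : ℕ} [NeZero M] {f : ZMod M → ℝ} {ρ κ b : ℝ} {Γ Δ : Finset (ZMod M)}

namespace Good

theorem sm_abs (h : Good f ρ κ Γ Δ b) (x : ZMod M) : |sm (bohr Γ ρ) f x| ≤ 1 := by
  rw [abs_of_nonneg (sm_nonneg _ h.f0 x)]
  exact sm_le_one _ h.f1 x

/-- the `k`-fold version -/
theorem kfold (h : Good f ρ κ Γ Δ b) : ∀ (k : ℕ) (F : ZMod M → ℝ), (∀ x, |F x| ≤ 1) →
    ∑ t ∈ Fintype.piFinset (fun _ : Fin k => bohr Γ ρ),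
      |∑ x, F x * (∏ i, f (x + t i) - sm (bohr Γ ρ) f x ^ k)| ≤
      2 * k * (3 * ρ + 2 * κ) * ((bohr Γ ρ).card : ℝ) ^ k * M := by
  set B := bohr Γ ρ with hB
  set g := sm B f with hg
  set ξ := 3 * ρ + 2 * κ with hξ
  have hξ0 : 0 ≤ ξ := by
    have := h.ρ0
    have := h.κ0
    rw [hξ]; linarith
  have hM := M_pos (M := M)
  intro k
  induction k with
  | zero =>
    intro F _
    simp
  | succ k ih =>
    intro F hF
    rw [sum_pi_succ]
    have hprod : ∀ (a : ZMod M) (t : Fin k → ZMod M) (x : ZMod M),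
        ∏ i : Fin (k + 1), f (x + (Fin.cons a t : Fin (k + 1) → ZMod M) i) =
          f (x + a) * ∏ i : Fin k, f (x + t i) := by
      intro a t x
      rw [Fin.prod_univ_succ]
      simp
    have hsplit : ∀ (a : ZMod M) (t : Fin k → ZMod M),
        |∑ x, F x * (∏ i : Fin (k + 1), f (x + (Fin.cons a t : Fin (k + 1) → ZMod M) i) -
          g x ^ (k + 1))| ≤
        |∑ x, (F x * f (x + a)) * (∏ i : Fin k, f (x + t i) - g x ^ k)| +
          (|∑ x, (f (x + a) - g (x + a)) * (F x * g x ^ k)| +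
            ∑ x, |g (x + a) - g x|) := by
      intro a t
      have e1 : ∑ x, F x * (∏ i : Fin (k + 1), f (x + (Fin.cons a t : Fin (k + 1) → ZMod M) i) -
          g x ^ (k + 1)) =
          ∑ x, (F x * f (x + a)) * (∏ i : Fin k, f (x + t i) - g x ^ k) +
          (∑ x, (f (x + a) - g (x + a)) * (F x * g x ^ k) +
            ∑ x, (g (x + a) - g x) * (F x * g x ^ k)) := by
        rw [← sum_add_distrib, ← sum_add_distrib]
        refine sum_congr rfl fun x _ => ?_
        rw [hprod, pow_succ]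
        ring
      rw [e1]
      refine (abs_add_le _ _).trans (add_le_add le_rfl ((abs_add_le _ _).trans
        (add_le_add le_rfl ?_)))
      refine (abs_sum_le_sum_abs _ _).trans (sum_le_sum fun x _ => ?_)
      rw [abs_mul, abs_mul, abs_pow]
      have h1 : |F x| * |g x| ^ k ≤ 1 := by
        have h2 : |g x| ^ k ≤ 1 := pow_le_one₀ (abs_nonneg _) (h.sm_abs x)
        calc |F x| * |g x| ^ k ≤ 1 * 1 := mul_le_mul (hF x) h2 (by positivity) zero_le_one
          _ = 1 := one_mul 1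
      exact mul_le_of_le_one_right (abs_nonneg _) h1
    have hFf : ∀ a x, |F x * f (x + a)| ≤ 1 := by
      intro a x
      rw [abs_mul]
      calc |F x| * |f (x + a)| ≤ 1 * 1 :=
            mul_le_mul (hF x) (h.abs_f _) (abs_nonneg _) zero_le_one
        _ = 1 := one_mul 1
    have hFg : ∀ x, |F x * g x ^ k| ≤ 1 := by
      intro x
      rw [abs_mul, abs_pow]
      calc |F x| * |g x| ^ k ≤ 1 * 1 :=
            mul_le_mul (hF x) (pow_le_one₀ (abs_nonneg _) (h.sm_abs x)) (by positivity) zero_le_one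
        _ = 1 := one_mul 1
    have hcardpi : ((Fintype.piFinset (fun _ : Fin k => B)).card : ℝ) = (B.card : ℝ) ^ k := by
      rw [Fintype.card_piFinset, prod_const, card_univ, Fintype.card_fin]
      push_cast
      rfl
    calc ∑ a ∈ B, ∑ t ∈ Fintype.piFinset (fun _ : Fin k => B),
          |∑ x, F x * (∏ i : Fin (k + 1), f (x + (Fin.cons a t : Fin (k + 1) → ZMod M) i) -
          g x ^ (k + 1))| ≤
          ∑ a ∈ B, ∑ t ∈ Fintype.piFinset (fun _ : Fin k => B),
            (|∑ x, (F x * f (x + a)) * (∏ i : Fin k, f (x + t i) - g x ^ k)| +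
          (|∑ x, (f (x + a) - g (x + a)) * (F x * g x ^ k)| +
            ∑ x, |g (x + a) - g x|)) :=
          sum_le_sum fun a _ => sum_le_sum fun t _ => hsplit a t
      _ = ∑ a ∈ B, (∑ t ∈ Fintype.piFinset (fun _ : Fin k => B),
            |∑ x, (F x * f (x + a)) * (∏ i : Fin k, f (x + t i) - g x ^ k)| +
            (B.card : ℝ) ^ k * (|∑ x, (f (x + a) - g (x + a)) * (F x * g x ^ k)| +
            ∑ x, |g (x + a) - g x|)) := by
          refine sum_congr rfl fun a _ => ?_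
          rw [sum_add_distrib, sum_const, nsmul_eq_mul, hcardpi]
      _ ≤ ∑ a ∈ B, (2 * k * ξ * (B.card : ℝ) ^ k * M +
            (B.card : ℝ) ^ k * (|∑ x, (f (x + a) - g (x + a)) * (F x * g x ^ k)| + ξ * M)) := by
          refine sum_le_sum fun a ha => add_le_add (ih _ (hFf a)) ?_
          apply mul_le_mul_of_nonneg_left _ (by positivity)
          exact add_le_add le_rfl (h.shift ha)
      _ = B.card * (2 * k * ξ * (B.card : ℝ) ^ k * M) +
            (B.card : ℝ) ^ k * (∑ a ∈ B, |∑ x, (f (x + a) - g (x + a)) * (F x * g x ^ k)| +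
              B.card * (ξ * M)) := by
          rw [sum_add_distrib, sum_const, nsmul_eq_mul, ← mul_sum, sum_add_distrib, sum_const,
            nsmul_eq_mul]
      _ ≤ B.card * (2 * k * ξ * (B.card : ℝ) ^ k * M) +
            (B.card : ℝ) ^ k * (ξ * B.card * M + B.card * (ξ * M)) := by
          have := h.unif (fun x => F x * g x ^ k) hFg
          gcongr
      _ = _ := by
          push_cast
          ring

/-- the main term -/
theorem main_term (h : Good f ρ κ Γ Δ b) (k : ℕ) :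
    ∑ x, sm (bohr Γ ρ) f x ^ (k + 1) - k * (3 * ρ + 2 * κ) * M ≤
      ∑ x, f x * sm (bohr Γ ρ) f x ^ k := by
  set B := bohr Γ ρ with hB
  set g := sm B f with hg
  set ξ := 3 * ρ + 2 * κ with hξ
  have hBp : (0 : ℝ) < B.card := h.card_pos
  have h1 : ∀ t ∈ B, ∑ x, f (x + t) * g x ^ k - k * ξ * M ≤ ∑ x, f x * g x ^ k := by
    intro t ht
    have e : ∑ x, f x * g x ^ k = ∑ x, f (x + t) * g (x + t) ^ k :=
      (Equiv.sum_comp (Equiv.addRight t) (fun x => f x * g x ^ k)).symm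
    rw [e]
    have h2 : ∑ x, f (x + t) * g x ^ k - ∑ x, f (x + t) * g (x + t) ^ k ≤
        ∑ x, (k : ℝ) * |g (x + t) - g x| := by
      rw [← sum_sub_distrib]
      refine sum_le_sum fun x _ => ?_
      have h3 := abs_pow_sub k (g (x + t)) (g x) (h.sm_abs _) (h.sm_abs _)
      have h4 : f (x + t) * g x ^ k - f (x + t) * g (x + t) ^ k =
          f (x + t) * -(g (x + t) ^ k - g x ^ k) := by ring
      rw [h4]
      have h5 : -(g (x + t) ^ k - g x ^ k) ≤ |g (x + t) ^ k - g x ^ k| := neg_le_abs _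
      calc f (x + t) * -(g (x + t) ^ k - g x ^ k) ≤
            f (x + t) * |g (x + t) ^ k - g x ^ k| := mul_le_mul_of_nonneg_left h5 (h.f0 _)
        _ ≤ 1 * |g (x + t) ^ k - g x ^ k| := mul_le_mul_of_nonneg_right (h.f1 _) (abs_nonneg _)
        _ ≤ _ := by rw [one_mul]; exact h3
    rw [← mul_sum] at h2
    have h6 : (k : ℝ) * ∑ x, |g (x + t) - g x| ≤ k * (ξ * M) :=
      mul_le_mul_of_nonneg_left (h.shift ht) (Nat.cast_nonneg _)
    linarith
  have h2 : ∑ t ∈ B, (∑ x, f (x + t) * g x ^ k - k * ξ * M) ≤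
      ∑ _t ∈ B, ∑ x, f x * g x ^ k := sum_le_sum h1
  rw [sum_sub_distrib, sum_const, sum_const, nsmul_eq_mul, nsmul_eq_mul, sum_comm] at h2
  have h3 : ∑ x, ∑ t ∈ B, f (x + t) * g x ^ k = B.card * ∑ x, g x ^ (k + 1) := by
    rw [mul_sum]
    refine sum_congr rfl fun x _ => ?_
    rw [← sum_mul]
    have h4 : ∑ t ∈ B, f (x + t) = B.card * g x := by
      rw [hg]
      unfold sm
      field_simp
    rw [h4, pow_succ]
    ring
  rw [h3] at h2
  have h4 : (B.card : ℝ) * (∑ x, g x ^ (k + 1) - k * ξ * M) ≤ B.card * ∑ x, f x * g x ^ k := by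
    linarith
  exact le_of_mul_le_mul_left h4 hBp

theorem power_mean (h : Good f ρ κ Γ Δ b) (k : ℕ) {α : ℝ} (hα : 0 ≤ α)
    (hf : α * M ≤ ∑ x, f x) : α ^ (k + 1) * M ≤ ∑ x, sm (bohr Γ ρ) f x ^ (k + 1) := by
  have hM := M_pos (M := M)
  have h1 := pow_sum_div_card_le_sum_pow (s := (univ : Finset (ZMod M)))
    (f := sm (bohr Γ ρ) f) (fun x _ => sm_nonneg _ h.f0 x) k
  rw [sum_sm _ h.ne, card_univ, ZMod.card] at h1
  refine le_trans ?_ h1
  rw [le_div_iff₀ (by positivity)]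
  calc α ^ (k + 1) * M * (M : ℝ) ^ k = (α * M) ^ (k + 1) := by
        rw [mul_pow, pow_succ (M : ℝ)]; ring
    _ ≤ _ := pow_le_pow_left₀ (by positivity) hf _

open Classical in
/-- **almost all `t` in `B ^ k` are popular** -/
theorem popular (h : Good f ρ κ Γ Δ b) (k : ℕ) {α η : ℝ} (hα : 0 < α)
    (hf : α * M ≤ ∑ x, f x) (hξ1 : 4 * k * (3 * ρ + 2 * κ) ≤ α ^ (k + 1))
    (hξ2 : 8 * k * (3 * ρ + 2 * κ) ≤ η * α ^ (k + 1)) :
    (((Fintype.piFinset (fun _ : Fin k => bohr Γ ρ)).filter fun t =>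
      ∑ x, f x * ∏ i, f (x + t i) < α ^ (k + 1) / 2 * M).card : ℝ) ≤
      η * ((bohr Γ ρ).card : ℝ) ^ k := by
  set B := bohr Γ ρ with hB
  set g := sm B f with hg
  set ξ := 3 * ρ + 2 * κ with hξ
  have hM := M_pos (M := M)
  have hBp : (0 : ℝ) < B.card := h.card_pos
  set A := α ^ (k + 1) with hA
  have hA0 : 0 < A := by positivity
  have h1 := h.kfold k f h.abs_f
  have h2 := h.main_term k
  have h3 := h.power_mean k hα.le hf
  set P := (Fintype.piFinset (fun _ : Fin k => B)).filter fun t =>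
      ∑ x, f x * ∏ i, f (x + t i) < A / 2 * M with hP
  have h4 : ∀ t ∈ P, A / 4 * M ≤ |∑ x, f x * (∏ i, f (x + t i) - g x ^ k)| := by
    intro t ht
    have h5 : ∑ x, f x * ∏ i, f (x + t i) < A / 2 * M := (mem_filter.1 ht).2
    have e : ∑ x, f x * (∏ i, f (x + t i) - g x ^ k) =
        ∑ x, f x * ∏ i, f (x + t i) - ∑ x, f x * g x ^ k := by
      rw [← sum_sub_distrib]
      refine sum_congr rfl fun x _ => ?_
      ring
    rw [e]
    refine le_trans ?_ (neg_le_abs _)
    have h6 : k * ξ * M ≤ A / 4 * M := by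
      apply mul_le_mul_of_nonneg_right _ hM.le
      linarith
    linarith
  have h5 : (P.card : ℝ) * (A / 4 * M) ≤ 2 * k * ξ * (B.card : ℝ) ^ k * M := by
    refine le_trans ?_ h1
    rw [← nsmul_eq_mul]
    refine (card_nsmul_le_sum P _ _ h4).trans ?_
    exact sum_le_sum_of_subset_of_nonneg (filter_subset _ _) fun _ _ _ => abs_nonneg _
  have h6 : (P.card : ℝ) * (A * M) ≤ (η * (B.card : ℝ) ^ k) * (A * M) := by
    calc (P.card : ℝ) * (A * M) = 4 * ((P.card : ℝ) * (A / 4 * M)) := by ring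
      _ ≤ 4 * (2 * k * ξ * (B.card : ℝ) ^ k * M) := mul_le_mul_of_nonneg_left h5 (by norm_num)
      _ = (8 * k * ξ) * ((B.card : ℝ) ^ k * M) := by ring
      _ ≤ (η * A) * ((B.card : ℝ) ^ k * M) := mul_le_mul_of_nonneg_right hξ2 (by positivity)
      _ = _ := by ring
  exact le_of_mul_le_mul_right h6 (by positivity)

end Good

open Classical in
/-- **the structure theorem** -/
theorem structure_thm (k : ℕ) (α η : ℝ) (hα : 0 < α) (hη : 0 < η) :
    ∃ (d : ℕ) (ρ b : ℝ), 0 < ρ ∧ 0 < b ∧ ∀ (M : ℕ) [NeZero M] (U : Finset (ZMod M)),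
      α * M ≤ U.card → ∃ Γ : Finset (ZMod M), Γ.card ≤ d ∧ b * M ≤ ((bohr Γ ρ).card : ℝ) ∧
        (((Fintype.piFinset (fun _ : Fin k => bohr Γ ρ)).filter fun t =>
          ((univ.filter fun x : ZMod M => x ∈ U ∧ ∀ i, x + t i ∈ U).card : ℝ) <
            α ^ (k + 1) / 2 * M).card : ℝ) ≤ η * ((bohr Γ ρ).card : ℝ) ^ k := by
  set A := α ^ (k + 1) with hA
  have hA0 : 0 < A := by positivity
  set ρ : ℝ := min (A / (20 * (k + 1))) (η * A / (40 * (k + 1))) with hρ
  have hk0 : (0 : ℝ) < k + 1 := by positivity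
  have hρ0 : 0 < ρ := lt_min (by positivity) (by positivity)
  obtain ⟨d, b, hb0, hb1, hsc⟩ := scales ρ ρ hρ0 hρ0
  refine ⟨d, ρ, b, hρ0, hb0, fun M _ U hU => ?_⟩
  set f : ZMod M → ℝ := fun x => if x ∈ U then 1 else 0 with hf
  have hf0 : ∀ x, 0 ≤ f x := by
    intro x
    simp only [hf]
    split_ifs <;> norm_num
  have hf1 : ∀ x, f x ≤ 1 := by
    intro x
    simp only [hf]
    split_ifs <;> norm_num
  have hfs : ∑ x, f x = U.card := by
    simp only [hf]
    rw [← sum_filter, sum_const, nsmul_eq_mul, mul_one]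
    congr 1
    congr 1
    ext x
    simp
  have hfn : ∑ x, ‖((f x : ℝ) : ℂ)‖ ^ 2 ≤ M := by
    calc ∑ x, ‖((f x : ℝ) : ℂ)‖ ^ 2 ≤ ∑ _x : ZMod M, (1 : ℝ) := by
          refine sum_le_sum fun x _ => ?_
          rw [Complex.norm_real, Real.norm_eq_abs, abs_of_nonneg (hf0 x)]
          exact pow_le_one₀ (hf0 x) (hf1 x)
      _ = M := by rw [sum_const, card_univ, ZMod.card, nsmul_eq_mul, mul_one]
  obtain ⟨Γ, Δ, b', h1, h2, h3, h4, h5, h6, h7⟩ := hsc M (fun x => ((f x : ℝ) : ℂ)) hfn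
  have hG : Good f ρ ρ Γ Δ b' := ⟨hf0, hf1, hρ0, hρ0, lt_of_lt_of_le hb0 h1, h2, h4, h5, h6, h7⟩
  refine ⟨Γ, h3, le_trans (mul_le_mul_of_nonneg_right h1 (Nat.cast_nonneg _)) h4, ?_⟩
  have hρ1 : ρ * (20 * (k + 1)) ≤ A := by
    have := min_le_left (A / (20 * ((k : ℝ) + 1))) (η * A / (40 * (k + 1)))
    rw [← hρ, le_div_iff₀ (by positivity)] at this
    exact this
  have hρ2 : ρ * (40 * (k + 1)) ≤ η * A := by
    have := min_le_right (A / (20 * ((k : ℝ) + 1))) (η * A / (40 * (k + 1)))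
    rw [← hρ, le_div_iff₀ (by positivity)] at this
    exact this
  have hk : (k : ℝ) ≤ k + 1 := by linarith
  have hkρ : (k : ℝ) * ρ ≤ (k + 1) * ρ := mul_le_mul_of_nonneg_right hk hρ0.le
  have key := hG.popular k (α := α) (η := η) hα (by rw [hfs]; exact hU) (by
      rw [← hA]; nlinarith) (by rw [← hA]; nlinarith)
  refine le_trans (le_of_eq ?_) key
  congr 2
  refine filter_congr fun t _ => ?_
  rw [← hA]
  have e : ∑ x, f x * ∏ i, f (x + t i) =
      ((univ.filter fun x : ZMod M => x ∈ U ∧ ∀ i, x + t i ∈ U).card : ℝ) := by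
    rw [card_filter]
    push_cast
    refine sum_congr rfl fun x _ => ?_
    simp only [hf]
    by_cases hx : x ∈ U
    · rw [if_pos hx, one_mul]
      by_cases hall : ∀ i, x + t i ∈ U
      · rw [if_pos ⟨hx, hall⟩]
        rw [prod_congr rfl fun i _ => if_pos (hall i), prod_const_one]
      · rw [if_neg (fun h => hall h.2)]
        push Not at hall
        obtain ⟨i, hi⟩ := hall
        exact prod_eq_zero (mem_univ i) (if_neg hi)
    · rw [if_neg hx, zero_mul, if_neg (fun h => hx h.1)]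
  rw [e]

end Pool.Agent.V11161.BF
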