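import Mathlib
import Pool.Agent.V11161.BF.Count

set_option autoImplicit false

/-!
# Bohr sets of integers
-/

namespace Pool.Agent.V11161.BF

open Finset

/-- the Bohr set of the frequencies `θ`, of radius `ρ` and width `X` -/
def bohrSet {d : ℕ} (θ : Fin d → ℝ) (ρ : ℝ) (X : ℕ) : Set ℤ :=
  {h : ℤ | |h| ≤ X ∧ ∀ j, ‖Complex.exp (2 * Real.pi * Complex.I * (h * θ j)) - 1‖ ≤ ρ}

theorem ps_int {M : ℕ} [NeZero M] (r : ZMod M) (h : ℤ) :
    (ps (r * (h : ZMod M)) : ℂ) =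
      Complex.exp (2 * Real.pi * Complex.I * (h * (((r.val : ℝ) / M : ℝ) : ℂ))) := by
  have e : r * (h : ZMod M) = (((r.val : ℤ) * h : ℤ) : ZMod M) := by
    push_cast
    rw [ZMod.natCast_zmod_val]
  unfold ps
  rw [e, ZMod.stdAddChar_coe]
  congr 1
  push_cast
  ring

theorem exists_theta {M : ℕ} [NeZero M] (Γ : Finset (ZMod M)) (d : ℕ) (hd : Γ.card ≤ d) (ρ : ℝ)
    (hρ : 0 ≤ ρ) : ∃ θ : Fin d → ℝ, ∀ h : ℤ,
      (∀ j, ‖Complex.exp (2 * Real.pi * Complex.I * (h * θ j)) - 1‖ ≤ ρ) ↔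
        (h : ZMod M) ∈ bohr Γ ρ := by
  classical
  refine ⟨fun j => if hj : (j : ℕ) < Γ.card then
    ((((Γ.equivFin.symm ⟨j, hj⟩ : Γ) : ZMod M).val : ℝ) / M) else 0, fun h => ?_⟩
  rw [mem_bohr]
  constructor
  · intro H r hr
    have h1 := H ⟨Γ.equivFin ⟨r, hr⟩, lt_of_lt_of_le (Γ.equivFin ⟨r, hr⟩).2 hd⟩
    have h2 : ((Γ.equivFin ⟨r, hr⟩ : Fin Γ.card) : ℕ) < Γ.card := (Γ.equivFin ⟨r, hr⟩).2
    simp only [h2, dif_pos, Fin.eta, Equiv.symm_apply_apply] at h1
    rw [ps_int]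
    exact h1
  · intro H j
    by_cases hj : (j : ℕ) < Γ.card
    · simp only [hj, dif_pos]
      have h1 := H _ (Γ.equivFin.symm ⟨j, hj⟩ : Γ).2
      rw [ps_int] at h1
      exact h1
    · simp only [hj, dif_neg, not_false_eq_true]
      rw [Complex.ofReal_zero, mul_zero, mul_zero, Complex.exp_zero, sub_self, norm_zero]
      exact hρ

theorem vma_of_abs {X : ℕ} {h : ℤ} (hh : |h| ≤ X) :
    ((h : ZMod (2 * X + 1)).valMinAbs : ℤ) = h := by
  rw [ZMod.valMinAbs_spec]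
  refine ⟨rfl, ?_⟩
  rw [Set.mem_Ioc]
  obtain ⟨h1, h2⟩ := abs_le.1 hh
  push_cast
  constructor <;> omega

theorem vma_abs {X : ℕ} (t : ZMod (2 * X + 1)) : |t.valMinAbs| ≤ X := by
  have h := ZMod.valMinAbs_mem_Ioc t
  rw [Set.mem_Ioc] at h
  obtain ⟨h1, h2⟩ := h
  push_cast at h1 h2
  rw [abs_le]
  constructor <;> omega

theorem bohrSet_eq {X d : ℕ} (Γ : Finset (ZMod (2 * X + 1))) (ρ : ℝ) (θ : Fin d → ℝ)
    (hθ : ∀ h : ℤ, (∀ j, ‖Complex.exp (2 * Real.pi * Complex.I * (h * θ j)) - 1‖ ≤ ρ) ↔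
        (h : ZMod (2 * X + 1)) ∈ bohr Γ ρ) :
    bohrSet θ ρ X = (fun t : ZMod (2 * X + 1) => t.valMinAbs) '' (bohr Γ ρ : Set (ZMod (2 * X + 1))) := by
  ext h
  constructor
  · rintro ⟨h1, h2⟩
    exact ⟨(h : ZMod (2 * X + 1)), (hθ h).1 h2, vma_of_abs h1⟩
  · rintro ⟨t, ht, rfl⟩
    refine ⟨vma_abs t, ?_⟩
    show ∀ j, ‖Complex.exp (2 * Real.pi * Complex.I * ((t.valMinAbs : ℤ) * θ j)) - 1‖ ≤ ρ
    rw [hθ t.valMinAbs, ZMod.coe_valMinAbs]
    exact ht

theorem bohrSet_card {X d : ℕ} (Γ : Finset (ZMod (2 * X + 1))) (ρ : ℝ) (θ : Fin d → ℝ)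
    (hθ : ∀ h : ℤ, (∀ j, ‖Complex.exp (2 * Real.pi * Complex.I * (h * θ j)) - 1‖ ≤ ρ) ↔
        (h : ZMod (2 * X + 1)) ∈ bohr Γ ρ) :
    (bohrSet θ ρ X).ncard = (bohr Γ ρ).card := by
  rw [bohrSet_eq Γ ρ θ hθ, Set.ncard_image_of_injective _ ZMod.injective_valMinAbs,
    Set.ncard_coe_finset]

open Classical in
/-- **the combinatorial theorem**: if almost all `(k + 1)`-tuples of a dense set `U` of numbers up
to `X` are in `G`, then almost all `k`-tuples of a Bohr set are differences of tuples in `G` -/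
theorem bohr_diff (k : ℕ) (η : ℝ) (hη : 0 < η) : ∃ (d : ℕ) (ρ b ε : ℝ), 0 < ρ ∧ 0 < b ∧ 0 < ε ∧
    ε ≤ 1 / 36 ∧ ∀ (X : ℕ) (U : Finset ℕ) (G : Finset (Fin (k + 1) → ℕ)),
      (∀ u ∈ U, u ≤ X) → 1 / 4 * ((X : ℝ) + 1) ≤ U.card →
      (∀ a ∈ G, Function.Injective a ∧ ∀ i, a i ∈ U) →
      (1 - ε) * (U.card : ℝ) ^ (k + 1) ≤ (G.card : ℝ) →
      ∃ (θ : Fin d → ℝ) (H : Finset (Fin k → ℤ)),
        b * X ≤ ((bohrSet θ ρ X).ncard : ℝ) ∧
        (∀ h ∈ H, (∀ i, h i ∈ bohrSet θ ρ X) ∧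
          ∃ a ∈ G, ∀ i : Fin k, (a i.succ : ℤ) - a 0 = h i) ∧
        (1 - η) * ((bohrSet θ ρ X).ncard : ℝ) ^ k ≤ (H.card : ℝ) := by
  obtain ⟨d, ρ, b, hρ, hb, hst⟩ := structure_thm k (1 / 8) (η / 2) (by norm_num) (by linarith)
  set c : ℝ := (1 / 8 : ℝ) ^ (k + 1) / 2 with hc
  have hc0 : 0 < c := by positivity
  set ε : ℝ := min (1 / 36) (η / 2 * c * b ^ k) with hε
  have hε0 : 0 < ε := lt_min (by norm_num) (by positivity)
  refine ⟨d, ρ, b, ε, hρ, hb, hε0, min_le_left _ _, ?_⟩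
  intro X U G hUX hUc hG1 hG2
  set M : ℕ := 2 * X + 1 with hM
  have hMr : (M : ℝ) = 2 * X + 1 := by rw [hM]; push_cast; ring
  have hMi : (M : ℤ) = 2 * X + 1 := by rw [hM]; push_cast; ring
  have hM0 : (0 : ℝ) < M := by rw [hMr]; positivity
  have hXr : (0 : ℝ) ≤ X := Nat.cast_nonneg _
  have hinj : Set.InjOn (fun u : ℕ => (u : ZMod M)) (U : Set ℕ) := by
    intro u hu v hv huv
    have h1 : ((u : ℕ) : ZMod M) = ((v : ℕ) : ZMod M) := huv
    rw [ZMod.natCast_eq_natCast_iff'] at h1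
    have h2 := hUX u hu
    have h3 := hUX v hv
    rw [Nat.mod_eq_of_lt (by omega), Nat.mod_eq_of_lt (by omega)] at h1
    exact h1
  set UZ : Finset (ZMod M) := U.image fun u : ℕ => (u : ZMod M) with hUZ
  have hUZc : UZ.card = U.card := card_image_of_injOn hinj
  obtain ⟨Γ, hΓ1, hΓ2, hΓ3⟩ := hst M UZ (by
    rw [hUZc, hMr]
    linarith)
  obtain ⟨θ, hθ⟩ := exists_theta Γ d hΓ1 ρ hρ.le
  have hBc := bohrSet_card Γ ρ θ hθ
  set B := bohr Γ ρ with hB
  have hBM : b * M ≤ (B.card : ℝ) := hΓ2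
  have hB0 : (0 : ℝ) < B.card := lt_of_lt_of_le (by positivity) hBM
  set P := Fintype.piFinset (fun _ : Fin k => B) with hP
  set Q : (Fin k → ZMod M) → Prop := fun t => ∃ a ∈ G, ∀ i : Fin k,
    (a i.succ : ℤ) - a 0 = (t i).valMinAbs with hQ
  set HZ := P.filter Q with hHZ
  set Bad := P.filter (fun t => ¬ Q t) with hBad
  have hPc : (P.card : ℝ) = (B.card : ℝ) ^ k := by
    rw [hP, Fintype.card_piFinset, prod_const, card_univ, Fintype.card_fin]
    push_cast
    rfl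
  have hsum : (HZ.card : ℝ) + Bad.card = (B.card : ℝ) ^ k := by
    rw [← hPc, hHZ, hBad]
    exact_mod_cast card_filter_add_card_filter_not Q
  -- the tuples outside `G`
  set R : (Fin k → ZMod M) → Finset (ZMod M) := fun t =>
    univ.filter fun x : ZMod M => x ∈ UZ ∧ ∀ i, x + t i ∈ UZ with hR
  have hval : ∀ x ∈ UZ, x.val ∈ U ∧ x.val ≤ X := by
    intro x hx
    obtain ⟨u, hu, rfl⟩ := mem_image.1 hx
    have h1 := hUX u hu
    have h2 : ((u : ℕ) : ZMod M).val = u := by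
      rw [ZMod.val_natCast, Nat.mod_eq_of_lt (by omega)]
    rw [h2]
    exact ⟨hu, h1⟩
  have hGsub : G ⊆ Fintype.piFinset fun _ : Fin (k + 1) => U := by
    intro a ha
    rw [Fintype.mem_piFinset]
    exact (hG1 a ha).2
  have hcount : (∑ t ∈ Bad, ((R t).card : ℝ)) ≤ ε * (U.card : ℝ) ^ (k + 1) := by
    have h1 : ∑ t ∈ Bad, (R t).card ≤ ((Fintype.piFinset fun _ : Fin (k + 1) => U) \ G).card := by
      rw [← card_sigma]
      refine card_le_card_of_injOn (fun p => fun i : Fin (k + 1) =>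
        ((Fin.cons p.2 (fun i => p.2 + p.1 i) : Fin (k + 1) → ZMod M) i).val) ?_ ?_
      · rintro ⟨t, x⟩ hp
        rw [mem_coe, mem_sigma] at hp
        obtain ⟨h2, h3⟩ := hp
        simp only at h2 h3
        obtain ⟨-, hx, hxt⟩ := mem_filter.1 h3
        rw [mem_coe, mem_sdiff, Fintype.mem_piFinset]
        constructor
        · intro i
          refine Fin.cases ?_ (fun j => ?_) i
          · simp only [Fin.cons_zero]
            exact (hval x hx).1
          · simp only [Fin.cons_succ]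
            exact (hval _ (hxt j)).1
        · intro hmem
          apply (mem_filter.1 h2).2
          refine ⟨_, hmem, fun i => ?_⟩
          simp only [Fin.cons_zero, Fin.cons_succ]
          symm
          have h4 := (hval x hx).2
          have h5 := (hval _ (hxt i)).2
          rw [ZMod.valMinAbs_spec]
          refine ⟨?_, ?_⟩
          · push_cast
            rw [ZMod.natCast_zmod_val, ZMod.natCast_zmod_val]
            ring
          · rw [Set.mem_Ioc]
            constructor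
            · omega
            · omega
      · rintro ⟨t, x⟩ - ⟨t', x'⟩ - h
        simp only at h
        have h0 := congrFun h 0
        simp only [Fin.cons_zero] at h0
        have hx : x = x' := ZMod.val_injective M h0
        subst hx
        have ht : t = t' := by
          funext i
          have h1 := congrFun h i.succ
          simp only [Fin.cons_succ] at h1
          exact add_left_cancel (ZMod.val_injective M h1)
        rw [ht]
    have h2 : (((Fintype.piFinset fun _ : Fin (k + 1) => U) \ G).card : ℝ) ≤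
        ε * (U.card : ℝ) ^ (k + 1) := by
      rw [cast_card_sdiff hGsub, Fintype.card_piFinset, prod_const, card_univ, Fintype.card_fin]
      push_cast
      linarith
    refine le_trans ?_ h2
    exact_mod_cast h1
  -- the unpopular tuples
  set NP := P.filter (fun t => ((R t).card : ℝ) < (1 / 8) ^ (k + 1) / 2 * M) with hNP
  have hNPc : (NP.card : ℝ) ≤ η / 2 * (B.card : ℝ) ^ k := hΓ3
  have hBadc : (Bad.card : ℝ) ≤ (NP.card : ℝ) + (Bad.filter fun t => t ∉ NP).card := by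
    have h1 : Bad ⊆ NP ∪ Bad.filter fun t => t ∉ NP := by
      intro t ht
      rw [mem_union]
      by_cases h : t ∈ NP
      · exact Or.inl h
      · exact Or.inr (mem_filter.2 ⟨ht, h⟩)
    exact_mod_cast (card_le_card h1).trans (card_union_le _ _)
  have hpop : ((Bad.filter fun t => t ∉ NP).card : ℝ) * (c * M) ≤ ε * (U.card : ℝ) ^ (k + 1) := by
    refine le_trans ?_ hcount
    rw [← nsmul_eq_mul]
    refine (card_nsmul_le_sum (Bad.filter fun t => t ∉ NP) (fun t => ((R t).card : ℝ)) _ ?_).trans ?_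
    · intro t ht
      obtain ⟨h1, h2⟩ := mem_filter.1 ht
      by_contra hcon
      exact h2 (mem_filter.2 ⟨(mem_filter.1 h1).1, not_le.1 hcon⟩)
    · exact sum_le_sum_of_subset_of_nonneg (filter_subset _ _) fun _ _ _ => Nat.cast_nonneg _
  have hUM : (U.card : ℝ) ≤ M := by
    have h1 : U.card ≤ X + 1 := by
      have h2 : U ⊆ range (X + 1) := fun u hu => mem_range.2 (by have := hUX u hu; omega)
      have := card_le_card h2
      rwa [card_range] at this
    have h2 : (U.card : ℝ) ≤ X + 1 := by exact_mod_cast h1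
    rw [hMr]
    linarith
  have hpop2 : ((Bad.filter fun t => t ∉ NP).card : ℝ) ≤ η / 2 * (B.card : ℝ) ^ k := by
    have h1 : ε * (U.card : ℝ) ^ (k + 1) ≤ (η / 2 * (B.card : ℝ) ^ k) * (c * M) := by
      have h2 : ε ≤ η / 2 * c * b ^ k := min_le_right _ _
      have h3 : (U.card : ℝ) ^ (k + 1) ≤ (M : ℝ) ^ (k + 1) :=
        pow_le_pow_left₀ (Nat.cast_nonneg _) hUM _
      have h4 : (b * M) ^ k ≤ (B.card : ℝ) ^ k := pow_le_pow_left₀ (by positivity) hBM _
      calc ε * (U.card : ℝ) ^ (k + 1) ≤ (η / 2 * c * b ^ k) * (M : ℝ) ^ (k + 1) :=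
            mul_le_mul h2 h3 (by positivity) (by positivity)
        _ = (η / 2) * ((b * M) ^ k) * (c * M) := by rw [mul_pow, pow_succ]; ring
        _ ≤ _ := by
            apply mul_le_mul_of_nonneg_right _ (by positivity)
            exact mul_le_mul_of_nonneg_left h4 (by positivity)
    exact le_of_mul_le_mul_right (hpop.trans h1) (by positivity)
  have hHZc : (1 - η) * (B.card : ℝ) ^ k ≤ (HZ.card : ℝ) := by linarith
  refine ⟨θ, HZ.image (fun t => fun i => (t i).valMinAbs), ?_, ?_, ?_⟩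
  · rw [hBc]
    refine le_trans ?_ hBM
    rw [hMr]
    nlinarith
  · intro h hh
    obtain ⟨t, ht, rfl⟩ := mem_image.1 hh
    obtain ⟨h1, a, ha, h2⟩ := mem_filter.1 ht
    rw [hP, Fintype.mem_piFinset] at h1
    refine ⟨fun i => ?_, a, ha, h2⟩
    rw [bohrSet_eq Γ ρ θ hθ]
    exact ⟨t i, h1 i, rfl⟩
  · rw [hBc]
    refine hHZc.trans (le_of_eq ?_)
    rw [card_image_of_injective]
    intro t t' h
    funext i
    exact ZMod.injective_valMinAbs (congrFun h i)

end Pool.Agent.V11161.BF
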