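import Mathlib
import Pool.Agent.V11161.BF.Lift
import Pool.Agent.V11161.CL.Nat

set_option autoImplicit false

/-!
# Clusters in a fixed set of linear forms, and sequences of linear forms
-/

namespace Pool.Agent.V11161.BF

open Finset Filter Topology
open Pool.Agent.Y827.GS (Adf cntN)
open Pool.Agent.V11161.CL (mainOne freq_pigeon)

/-- a fixed primitive form with positive slope is admissible for large `N` -/
theorem adf_ev {A : ℕ} {f : ℤ × ℤ} (h1 : 0 < f.1) (h2 : IsCoprime f.1 f.2) (hA : f.1.natAbs ≤ A) :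
    ∀ᶠ N : ℕ in atTop, Adf A N f := by
  filter_upwards [eventually_ge_atTop (48 * f.2.natAbs)] with N hN
  have hNr : (48 : ℝ) * (f.2.natAbs : ℝ) ≤ N := by exact_mod_cast hN
  have hab : |(f.2 : ℝ)| = (f.2.natAbs : ℝ) := by
    rw [Nat.cast_natAbs]
    push_cast
    rfl
  refine ⟨h1.ne', ?_, ?_, h2, fun t ht1 ht2 => ?_⟩
  · have : |f.1| = (f.1.natAbs : ℤ) := Int.abs_eq_natAbs _
    rw [this]
    exact_mod_cast hA
  · have : |f.2| = (f.2.natAbs : ℤ) := Int.abs_eq_natAbs _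
    rw [this]
    have h3 : f.2.natAbs ≤ N := by omega
    exact_mod_cast h3
  · have h3 : (1 : ℝ) ≤ f.1 := by exact_mod_cast h1
    have h4 : (0 : ℝ) ≤ N := Nat.cast_nonneg _
    have h5 : (0 : ℝ) ≤ t := by linarith
    have h6 : t ≤ f.1 * t := le_mul_of_one_le_left h5 h3
    have h7 : -|(f.2 : ℝ)| ≤ f.2 := neg_abs_le _
    rw [hab] at h7
    linarith

open Classical in
/-- one cluster in a fixed set of forms -/
theorem fixForms (k : ℕ) (ε : ℝ) (hε : 0 < ε) :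
    ∃ z n₀ C : ℕ, ∀ V : Finset (ℤ × ℤ), n₀ ≤ V.card →
      (∀ f ∈ V, 0 < f.1 ∧ IsCoprime f.1 f.2) →
      (∀ p : ℕ, p.Prime → p ≤ z → ∃ t : ℤ, ∀ f ∈ V, ¬ ((p : ℤ) ∣ f.1 * t + f.2)) →
      ∃ (U : Finset (ℤ × ℤ)) (G : Finset (Fin (k + 1) → ℤ × ℤ)),
        U ⊆ V ∧ (5 / 18 - ε) * (V.card : ℝ) ≤ U.card ∧
        (∀ a ∈ G, Function.Injective a ∧ ∀ i, a i ∈ U) ∧
        (1 - ε) * (U.card : ℝ) ^ (k + 1) ≤ (G.card : ℝ) ∧
        ∃ᶠ N : ℕ in atTop, ∀ a ∈ G, (N : ℝ) / (Real.log N) ^ C ≤ (cntN (univ.image a) N : ℝ) := by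
  obtain ⟨z, n₀, C, h⟩ := mainOne k ε hε
  refine ⟨z, n₀, C, fun V hn hV hloc => ?_⟩
  set A : ℕ := V.sup fun f => f.1.natAbs with hA
  set S : Finset (Finset (ℤ × ℤ) × Finset (Fin (k + 1) → ℤ × ℤ)) :=
    V.powerset ×ˢ (Fintype.piFinset fun _ : Fin (k + 1) => V).powerset with hS
  have hev : ∀ᶠ N : ℕ in atTop, ∀ f ∈ V, Adf A N f := by
    rw [Filter.eventually_all_finset]
    intro f hf
    exact adf_ev (hV f hf).1 (hV f hf).2 (Finset.le_sup (f := fun f : ℤ × ℤ => f.1.natAbs) hf)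
  have h1 : ∀ᶠ N : ℕ in atTop, ∃ s ∈ S,
      (s.1 ⊆ V ∧ (5 / 18 - ε) * (V.card : ℝ) ≤ s.1.card ∧
        (∀ a ∈ s.2, Function.Injective a ∧ ∀ i, a i ∈ s.1) ∧
        (1 - ε) * (s.1.card : ℝ) ^ (k + 1) ≤ (s.2.card : ℝ)) ∧
        ∀ a ∈ s.2, (N : ℝ) / (Real.log N) ^ C ≤ (cntN (univ.image a) N : ℝ) := by
    filter_upwards [h A, hev] with N hN hNV
    obtain ⟨U, h1, h2, h5⟩ := hN V hn hNV hloc
    refine ⟨(U, (Fintype.piFinset (fun _ : Fin (k + 1) => U)).filter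
      (fun a => Function.Injective a ∧ (N : ℝ) / (Real.log N) ^ C ≤ (cntN (univ.image a) N : ℝ))), ?_,
      ⟨h1, h2, ?_, h5⟩, ?_⟩
    · rw [hS, mem_product]
      refine ⟨mem_powerset.2 h1, mem_powerset.2 ?_⟩
      intro a ha
      have h6 := Fintype.mem_piFinset.1 (mem_filter.1 ha).1
      rw [Fintype.mem_piFinset]
      exact fun i => h1 (h6 i)
    · intro a ha
      obtain ⟨h6, h7, -⟩ := mem_filter.1 ha
      exact ⟨h7, Fintype.mem_piFinset.1 h6⟩
    · intro a ha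
      exact (mem_filter.1 ha).2.2
  obtain ⟨s, -, hs⟩ := freq_pigeon S _ h1
  obtain ⟨N₁, hN₁, -⟩ := hs.exists
  obtain ⟨a1, a2, a3, a4⟩ := hN₁
  exact ⟨s.1, s.2, a1, a2, a3, a4, hs.mono fun N hN => hN.2⟩

open Classical in
/-- **sequences of linear forms**: almost all vectors of a Bohr set are differences of good
tuples of indices -/
theorem seqTuples (k : ℕ) (η : ℝ) (hη : 0 < η) :
    ∃ (z d C X₀ : ℕ) (ρ b : ℝ), 0 < ρ ∧ 0 < b ∧ ∀ Φ : ℕ → ℤ × ℤ, Function.Injective Φ →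
      (∀ u, 0 < (Φ u).1 ∧ IsCoprime (Φ u).1 (Φ u).2) →
      (∀ p : ℕ, p.Prime → p ≤ z → ∃ t : ℤ, ∀ u, ¬ ((p : ℤ) ∣ (Φ u).1 * t + (Φ u).2)) →
      ∀ X : ℕ, X₀ ≤ X → ∃ (θ : Fin d → ℝ) (H : Finset (Fin k → ℤ)),
        b * X ≤ ((bohrSet θ ρ X).ncard : ℝ) ∧
        (∀ h ∈ H, (∀ i, h i ∈ bohrSet θ ρ X ∧ h i ≠ 0) ∧ Function.Injective h) ∧
        (1 - η) * ((bohrSet θ ρ X).ncard : ℝ) ^ k ≤ (H.card : ℝ) ∧
        ∃ᶠ N : ℕ in atTop, ∀ h ∈ H, ∃ a : Fin (k + 1) → ℕ, (∀ i, a i ≤ X) ∧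
          (∀ i : Fin k, (a i.succ : ℤ) - a 0 = h i) ∧ (N : ℝ) / (Real.log N) ^ C ≤
          ({n : ℕ | n ≤ N ∧ ∀ i, ((Φ (a i)).1 * (n : ℤ) + (Φ (a i)).2).toNat.Prime}.ncard : ℝ) := by
  obtain ⟨d, ρ, b, ε, hρ, hb, hε0, hε1, hbd⟩ := bohr_diff k η hη
  obtain ⟨z, n₀, C, hfix⟩ := fixForms k ε hε0
  refine ⟨z, d, C, n₀, ρ, b, hρ, hb, fun Φ hΦ hΦ1 hΦ2 X hX => ?_⟩
  set V : Finset (ℤ × ℤ) := (range (X + 1)).image Φ with hV
  have hVc : V.card = X + 1 := by
    rw [hV, card_image_of_injective _ hΦ, card_range]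
  obtain ⟨U, G, hU1, hU2, hG1, hG2, hfr⟩ := hfix V (by rw [hVc]; omega) (by
      intro f hf
      obtain ⟨u, -, rfl⟩ := mem_image.1 hf
      exact hΦ1 u) (by
      intro p hp hpz
      obtain ⟨t, ht⟩ := hΦ2 p hp hpz
      refine ⟨t, fun f hf => ?_⟩
      obtain ⟨u, -, rfl⟩ := mem_image.1 hf
      exact ht u)
  set U' : Finset ℕ := (range (X + 1)).filter (fun x => Φ x ∈ U) with hU'
  have hUU : U = U'.image Φ := by
    ext u
    rw [mem_image]
    constructor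
    · intro hu
      obtain ⟨x, hx, rfl⟩ := mem_image.1 (hU1 hu)
      exact ⟨x, mem_filter.2 ⟨hx, hu⟩, rfl⟩
    · rintro ⟨x, hx, rfl⟩
      exact (mem_filter.1 hx).2
  have hUc : U.card = U'.card := by
    conv_lhs => rw [hUU]
    exact card_image_of_injective _ hΦ
  set G' : Finset (Fin (k + 1) → ℕ) := (Fintype.piFinset fun _ : Fin (k + 1) => U').filter
    (fun a => (fun i => Φ (a i)) ∈ G) with hG'
  have hinjG : Function.Injective (fun a : Fin (k + 1) → ℕ => fun i => Φ (a i)) := by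
    intro a a' h
    funext i
    exact hΦ (congrFun h i)
  have hGG : G = G'.image (fun a => fun i => Φ (a i)) := by
    ext a
    rw [mem_image]
    constructor
    · intro ha
      have h1 : ∀ i, ∃ x ∈ U', Φ x = a i := by
        intro i
        have h2 := (hG1 a ha).2 i
        rw [hUU] at h2
        exact mem_image.1 h2
      choose x hx1 hx2 using h1
      have h3 : (fun i => Φ (x i)) = a := funext hx2
      refine ⟨x, mem_filter.2 ⟨?_, ?_⟩, h3⟩
      · rw [Fintype.mem_piFinset]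
        exact hx1
      · rw [h3]; exact ha
    · rintro ⟨x, hx, rfl⟩
      exact (mem_filter.1 hx).2
  have hGc : G.card = G'.card := by
    conv_lhs => rw [hGG]
    exact card_image_of_injective _ hinjG
  obtain ⟨θ, H, hH1, hH2, hH3⟩ := hbd X U' G' (by
      intro u hu
      have := mem_range.1 (mem_filter.1 hu).1
      omega) (by
      rw [← hUc]
      refine le_trans ?_ hU2
      rw [hVc]
      push_cast
      have : (0 : ℝ) ≤ (X : ℝ) + 1 := by positivity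
      nlinarith) (by
      intro a ha
      obtain ⟨h1, h2⟩ := mem_filter.1 ha
      refine ⟨?_, Fintype.mem_piFinset.1 h1⟩
      intro i j hij
      exact (hG1 _ h2).1 (by simp only [hij])) (by
      rw [← hUc, ← hGc]
      exact hG2)
  refine ⟨θ, H, hH1, ?_, hH3, ?_⟩
  · intro h hh
    obtain ⟨h1, a, ha, h2⟩ := hH2 h hh
    have hainj : Function.Injective a := by
      intro i j hij
      exact (hG1 _ (mem_filter.1 ha).2).1 (by simp only [hij])
    refine ⟨fun i => ⟨h1 i, ?_⟩, ?_⟩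
    · rw [← h2 i]
      intro h0
      have h3 : a i.succ = a 0 := by omega
      exact absurd (hainj h3) (Fin.succ_ne_zero i)
    · intro i j hij
      rw [← h2 i, ← h2 j] at hij
      have h3 : a i.succ = a j.succ := by omega
      exact Fin.succ_injective _ (hainj h3)
  · refine hfr.mono ?_
    intro N hN h hh
    obtain ⟨-, a, ha, h2⟩ := hH2 h hh
    obtain ⟨h3, h4⟩ := mem_filter.1 ha
    refine ⟨a, fun i => ?_, h2, (hN _ h4).trans ?_⟩
    · have := mem_range.1 (mem_filter.1 (Fintype.mem_piFinset.1 h3 i)).1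
      omega
    · unfold cntN
      rw [Nat.cast_le, ← Set.ncard_coe_finset]
      refine Set.ncard_le_ncard ?_ ((Set.finite_Iic N).subset fun n hn => hn.1)
      intro n hn
      obtain ⟨h5, h6⟩ := mem_filter.1 (mem_coe.1 hn)
      exact ⟨(mem_Icc.1 h5).2, fun i => h6 _ (mem_image_of_mem _ (mem_univ i))⟩

end Pool.Agent.V11161.BF
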