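import Mathlib
import Pool.Agent.V11161.BF.Forms

set_option autoImplicit false

/-!
# Iterates of `x ↦ a + d x`
-/

namespace Pool.Agent.V11161.BF

open Finset Filter Topology

/-- the geometric sum -/
def gs (d : ℤ) (m : ℕ) : ℤ := ∑ i ∈ range m, d ^ i

theorem gs_succ (d : ℤ) (m : ℕ) : gs d (m + 1) = 1 + d * gs d m := by
  unfold gs
  rw [sum_range_succ', mul_sum, pow_zero, add_comm]
  congr 1
  refine sum_congr rfl fun i _ => ?_
  rw [pow_succ]
  ring

/-- the iterates -/
theorem iter_eq (a d : ℤ) (m : ℕ) (x : ℤ) :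
    (fun x : ℤ => a + d * x)^[m] x = d ^ m * x + a * gs d m := by
  induction m with
  | zero => simp [gs]
  | succ m ih =>
    rw [Function.iterate_succ_apply', ih, gs_succ, pow_succ]
    ring

/-- the form of the `m`-th iterate -/
def itf (a d : ℤ) (m : ℕ) : ℤ × ℤ := (d ^ m, a * gs d m)

theorem itf_coprime {a d : ℤ} (h : IsCoprime a d) (m : ℕ) :
    IsCoprime (itf a d m).1 (itf a d m).2 := by
  show IsCoprime (d ^ m) (a * gs d m)
  rcases m with _ | m
  · rw [pow_zero]
    exact isCoprime_one_left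
  · apply IsCoprime.pow_left
    apply IsCoprime.mul_right h.symm
    rw [gs_succ]
    exact ⟨-gs d m, 1, by ring⟩

theorem itf_inj {a d : ℤ} (hd : 1 ≤ d) (ha : a ≠ 0) : Function.Injective (itf a d) := by
  intro m m' h
  have h1 : d ^ m = d ^ m' := congrArg Prod.fst h
  have h2 : a * gs d m = a * gs d m' := congrArg Prod.snd h
  rcases eq_or_lt_of_le hd with h3 | h3
  · have h4 := mul_left_cancel₀ ha h2
    have e : ∀ m, gs d m = m := by
      intro m
      unfold gs
      rw [← h3]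
      simp
    rw [e, e] at h4
    exact_mod_cast h4
  · exact Int.pow_right_injective (by omega) h1

theorem itf_local {a d : ℤ} (h : IsCoprime a d) (z : ℕ) {p : ℕ} (hp : p.Prime) (hpz : p ≤ z)
    (u : ℕ) : ¬ ((p : ℤ) ∣ (itf a d (z.factorial * u)).1 * 1 + (itf a d (z.factorial * u)).2) := by
  show ¬ ((p : ℤ) ∣ d ^ (z.factorial * u) * 1 + a * gs d (z.factorial * u))
  set m := z.factorial * u with hm
  haveI : Fact p.Prime := ⟨hp⟩
  by_cases hpd : (p : ℤ) ∣ d
  · intro hdvd
    rcases m with _ | m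
    · have e : d ^ 0 * 1 + a * gs d 0 = 1 := by
        unfold gs
        simp
      rw [e] at hdvd
      have h4 : p ∣ 1 := by exact_mod_cast hdvd
      exact hp.one_lt.ne' (Nat.dvd_one.1 h4)
    · rw [gs_succ] at hdvd
      have e : a = (d ^ (m + 1) * 1 + a * (1 + d * gs d m)) - d * (d ^ m + a * gs d m) := by
        rw [pow_succ]; ring
      have h3 : (p : ℤ) ∣ a := by
        rw [e]
        exact dvd_sub hdvd (hpd.mul_right _)
      obtain ⟨x, y, hxy⟩ := h
      have h4 : (p : ℤ) ∣ 1 := by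
        rw [← hxy]
        exact dvd_add (h3.mul_left x) (hpd.mul_left y)
      have h5 : p ∣ 1 := by exact_mod_cast h4
      exact hp.one_lt.ne' (Nat.dvd_one.1 h5)
  · have hpm : p ∣ m := (Nat.dvd_factorial hp.pos hpz).mul_right u
    have hpm1 : (p - 1) ∣ m := by
      rcases Nat.eq_zero_or_pos (p - 1) with h0 | h0
      · have := hp.two_le
        omega
      · exact (Nat.dvd_factorial h0 (by omega)).mul_right u
    have hd0 : ((d : ℤ) : ZMod p) ≠ 0 := by
      intro h0
      exact hpd ((ZMod.intCast_zmod_eq_zero_iff_dvd d p).1 h0)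
    have hdm : ((d : ℤ) : ZMod p) ^ m = 1 := by
      obtain ⟨j, hj⟩ := hpm1
      rw [hj, pow_mul, ZMod.pow_card_sub_one_eq_one hd0, one_pow]
    have hgs : ((gs d m : ℤ) : ZMod p) = 0 := by
      unfold gs
      push_cast
      by_cases h1 : ((d : ℤ) : ZMod p) = 1
      · rw [h1]
        simp only [one_pow, sum_const, card_range, nsmul_eq_mul, mul_one]
        exact (ZMod.natCast_eq_zero_iff m p).2 hpm
      · have h2 := geom_sum_mul ((d : ℤ) : ZMod p) m
        rw [hdm, sub_self] at h2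
        rcases mul_eq_zero.1 h2 with h3 | h3
        · exact h3
        · exact absurd (sub_eq_zero.1 h3) h1
    intro hdvd
    have h1 := (ZMod.intCast_zmod_eq_zero_iff_dvd _ p).2 hdvd
    push_cast at h1
    rw [hdm, hgs] at h1
    simp at h1

/-- composition of iterates -/
theorem iter_add (a d : ℤ) (m n : ℕ) (x : ℤ) :
    (fun x : ℤ => a + d * x)^[m] (d ^ n * x + a * gs d n) = d ^ (m + n) * x + a * gs d (m + n) := by
  rw [← iter_eq a d n x, ← Function.iterate_add_apply, iter_eq]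

/-- the positive part of the Bohr set -/
def bohrPos {r : ℕ} (θ : Fin r → ℝ) (ρ : ℝ) (X : ℕ) : Set ℕ :=
  {h : ℕ | 1 ≤ h ∧ h ≤ X ∧ ∀ j, ‖Complex.exp (2 * Real.pi * Complex.I * (h * θ j)) - 1‖ ≤ ρ}

theorem bohrSet_finite {r : ℕ} (θ : Fin r → ℝ) (ρ : ℝ) (X : ℕ) : (bohrSet θ ρ X).Finite :=
  (Set.finite_Icc (-(X : ℤ)) X).subset fun _ hh => abs_le.1 hh.1

theorem bohrPos_finite {r : ℕ} (θ : Fin r → ℝ) (ρ : ℝ) (X : ℕ) : (bohrPos θ ρ X).Finite :=
  (Set.finite_Iic X).subset fun _ hh => hh.2.1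

theorem exp_neg_sub (φ : ℝ) (h : ℤ) :
    ‖Complex.exp (2 * Real.pi * Complex.I * (((-h : ℤ) : ℂ) * φ)) - 1‖ =
      ‖Complex.exp (2 * Real.pi * Complex.I * ((h : ℂ) * φ)) - 1‖ := by
  rw [← RCLike.norm_conj, map_sub, map_one, ← Complex.exp_conj]
  congr 3
  simp only [map_mul, Complex.conj_I, Complex.conj_ofReal, map_ofNat, map_intCast]
  push_cast
  ring

theorem bohrSet_le {r : ℕ} (θ : Fin r → ℝ) (ρ : ℝ) (X : ℕ) :
    (bohrSet θ ρ X).ncard ≤ 2 * (bohrPos θ ρ X).ncard + 1 := by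
  have h : bohrSet θ ρ X ⊆ ((fun n : ℕ => (n : ℤ)) '' bohrPos θ ρ X ∪
      (fun n : ℕ => -(n : ℤ)) '' bohrPos θ ρ X) ∪ {0} := by
    rintro h ⟨h1, h2⟩
    rcases lt_trichotomy h 0 with h3 | h3 | h3
    · left; right
      refine ⟨h.natAbs, ⟨by omega, ?_, fun j => ?_⟩, ?_⟩
      · have := abs_le.1 h1; omega
      · have h4 := h2 j
        rw [← exp_neg_sub] at h4
        have e : ((-h : ℤ) : ℂ) = ((h.natAbs : ℕ) : ℂ) := by
          have : (-h : ℤ) = ((h.natAbs : ℕ) : ℤ) := by omega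
          exact (congrArg (fun x : ℤ => (x : ℂ)) this).trans (Int.cast_natCast _)
        rw [e] at h4
        exact h4
      · show -((h.natAbs : ℕ) : ℤ) = h
        omega
    · right
      exact h3
    · left; left
      refine ⟨h.natAbs, ⟨by omega, ?_, fun j => ?_⟩, ?_⟩
      · have := abs_le.1 h1; omega
      · have h4 := h2 j
        have e : ((h : ℤ) : ℂ) = ((h.natAbs : ℕ) : ℂ) := by
          have : (h : ℤ) = ((h.natAbs : ℕ) : ℤ) := by omega
          exact (congrArg (fun x : ℤ => (x : ℂ)) this).trans (Int.cast_natCast _)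
        rw [e] at h4
        exact h4
      · show ((h.natAbs : ℕ) : ℤ) = h
        omega
  have hf := bohrPos_finite θ ρ X
  refine (Set.ncard_le_ncard h (((hf.image _).union (hf.image _)).union
    (Set.finite_singleton 0))).trans ?_
  refine (Set.ncard_union_le _ _).trans ?_
  rw [Set.ncard_singleton]
  have h1 := Set.ncard_union_le ((fun n : ℕ => (n : ℤ)) '' bohrPos θ ρ X)
    ((fun n : ℕ => -(n : ℤ)) '' bohrPos θ ρ X)
  have h2 := Set.ncard_image_le (f := fun n : ℕ => (n : ℤ)) hf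
  have h3 := Set.ncard_image_le (f := fun n : ℕ => -(n : ℤ)) hf
  omega

open Classical in
/-- passing to the positive vectors -/
theorem pos_part {k r : ℕ} (θ : Fin r → ℝ) (ρ : ℝ) (X : ℕ) (η : ℝ) (hη : 0 ≤ η)
    (hB : 1 ≤ (bohrPos θ ρ X).ncard)
    (H : Finset (Fin k → ℤ)) (hH1 : ∀ h ∈ H, ∀ i, h i ∈ bohrSet θ ρ X)
    (hH2 : (1 - η / 3 ^ k) * ((bohrSet θ ρ X).ncard : ℝ) ^ k ≤ (H.card : ℝ)) :
    ∃ H' : Finset (Fin k → ℕ), (∀ h ∈ H', (∀ i, h i ∈ bohrPos θ ρ X) ∧ (fun i => (h i : ℤ)) ∈ H) ∧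
      (1 - η) * ((bohrPos θ ρ X).ncard : ℝ) ^ k ≤ (H'.card : ℝ) := by
  set B := bohrSet θ ρ X with hBd
  set P := bohrPos θ ρ X with hPd
  have hBf := bohrSet_finite θ ρ X
  have hPf := bohrPos_finite θ ρ X
  set Bf := hBf.toFinset with hBfd
  set Pf := hPf.toFinset with hPfd
  have hBc : B.ncard = Bf.card := Set.ncard_eq_toFinset_card B hBf
  have hPc : P.ncard = Pf.card := Set.ncard_eq_toFinset_card P hPf
  set Q := (Fintype.piFinset fun _ : Fin k => Pf) with hQ
  set c : (Fin k → ℕ) → (Fin k → ℤ) := fun h i => (h i : ℤ) with hc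
  have hcinj : Function.Injective c := by
    intro h h' hh
    funext i
    have : ((h i : ℕ) : ℤ) = ((h' i : ℕ) : ℤ) := congrFun hh i
    exact_mod_cast this
  set H' := Q.filter fun h => c h ∈ H with hH'
  refine ⟨H', fun h hh => ?_, ?_⟩
  · obtain ⟨h1, h2⟩ := mem_filter.1 hh
    rw [hQ, Fintype.mem_piFinset] at h1
    exact ⟨fun i => hPf.mem_toFinset.1 (h1 i), h2⟩
  · have h1 : (Q.card : ℝ) = (P.ncard : ℝ) ^ k := by
      rw [hQ, Fintype.card_piFinset, prod_const, card_univ, Fintype.card_fin, hPc]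
      push_cast
      rfl
    have h2 : (H'.card : ℝ) + ((Q.filter fun h => ¬ c h ∈ H).card : ℝ) = Q.card := by
      exact_mod_cast card_filter_add_card_filter_not (s := Q) (fun h => c h ∈ H)
    have h3 : ((Q.filter fun h => ¬ c h ∈ H).card : ℝ) ≤ η / 3 ^ k * (B.ncard : ℝ) ^ k := by
      have h4 : (Q.filter fun h => ¬ c h ∈ H).card ≤
          ((Fintype.piFinset fun _ : Fin k => Bf) \ H).card := by
        refine card_le_card_of_injOn c ?_ (hcinj.injOn)
        intro h hh
        obtain ⟨h5, h6⟩ := mem_filter.1 (mem_coe.1 hh)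
        rw [hQ, Fintype.mem_piFinset] at h5
        rw [mem_coe, Finset.mem_sdiff, Fintype.mem_piFinset]
        refine ⟨fun i => ?_, h6⟩
        rw [hBf.mem_toFinset]
        obtain ⟨h7, h8, h9⟩ := hPf.mem_toFinset.1 (h5 i)
        refine ⟨?_, fun j => ?_⟩
        · show |((h i : ℕ) : ℤ)| ≤ X
          rw [abs_of_nonneg (by positivity)]
          exact_mod_cast h8
        · have := h9 j
          show ‖Complex.exp (2 * Real.pi * Complex.I * ((((h i : ℕ) : ℤ) : ℂ) * θ j)) - 1‖ ≤ ρ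
          push_cast
          exact this
      have h5 : H ⊆ Fintype.piFinset fun _ : Fin k => Bf := by
        intro h hh
        rw [Fintype.mem_piFinset]
        exact fun i => hBf.mem_toFinset.2 (hH1 h hh i)
      have h6 : (((Fintype.piFinset fun _ : Fin k => Bf) \ H).card : ℝ) ≤
          η / 3 ^ k * (B.ncard : ℝ) ^ k := by
        rw [cast_card_sdiff h5, Fintype.card_piFinset, prod_const, card_univ, Fintype.card_fin,
          hBc]
        rw [hBc] at hH2
        push_cast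
        linarith
      exact le_trans (by exact_mod_cast h4) h6
    have h4 : (B.ncard : ℝ) ≤ 3 * P.ncard := by
      have h5 : B.ncard ≤ 2 * P.ncard + 1 := bohrSet_le θ ρ X
      have h7 : 1 ≤ P.ncard := hB
      have h6 : B.ncard ≤ 3 * P.ncard := by
        clear_value B P
        omega
      exact_mod_cast h6
    have h5 : η / 3 ^ k * (B.ncard : ℝ) ^ k ≤ η * (P.ncard : ℝ) ^ k := by
      calc η / 3 ^ k * (B.ncard : ℝ) ^ k ≤ η / 3 ^ k * (3 * P.ncard) ^ k := by gcongr
        _ = η * (P.ncard : ℝ) ^ k := by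
            rw [mul_pow]
            have : (3 : ℝ) ^ k ≠ 0 := by positivity
            field_simp
    linarith

end Pool.Agent.V11161.BF
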