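import Mathlib
import Pool.Agent.V11161.BF.Iter

set_option autoImplicit false

/-!
# Primes in the orbits of `x ↦ a + d x`
-/

namespace Pool.Agent.V11161.BF

open Finset Filter Topology

/-- rescaling -/
theorem scale_log (C D : ℕ) (hD : 0 < D) :
    ∀ᶠ N : ℕ in atTop, ((D * N : ℕ) : ℝ) / (Real.log ((D * N : ℕ) : ℝ)) ^ (C + 1) ≤
      (N : ℝ) / (Real.log N) ^ C := by
  have h1 : Tendsto (fun N : ℕ => Real.log (N : ℝ)) atTop atTop :=
    Real.tendsto_log_atTop.comp tendsto_natCast_atTop_atTop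
  filter_upwards [h1.eventually_ge_atTop (D : ℝ), eventually_ge_atTop 2] with N hN hN2
  have hNr : (2 : ℝ) ≤ N := by exact_mod_cast hN2
  have hD1 : (1 : ℝ) ≤ D := by exact_mod_cast hD
  have h2 : (0 : ℝ) < Real.log N := Real.log_pos (by linarith)
  have h3 : Real.log N ≤ Real.log ((D * N : ℕ) : ℝ) := by
    apply Real.log_le_log (by linarith)
    push_cast
    nlinarith
  have h4 : (0 : ℝ) < Real.log ((D * N : ℕ) : ℝ) := lt_of_lt_of_le h2 h3
  rw [div_le_div_iff₀ (by positivity) (by positivity)]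
  have h5 : (Real.log N) ^ C ≤ (Real.log ((D * N : ℕ) : ℝ)) ^ C := by gcongr
  have h6 : (D : ℝ) ≤ Real.log ((D * N : ℕ) : ℝ) := hN.trans h3
  calc ((D * N : ℕ) : ℝ) * Real.log N ^ C = N * (D * Real.log N ^ C) := by push_cast; ring
    _ ≤ N * (Real.log ((D * N : ℕ) : ℝ) * Real.log ((D * N : ℕ) : ℝ) ^ C) := by gcongr
    _ = N * Real.log ((D * N : ℕ) : ℝ) ^ (C + 1) := by rw [pow_succ]; ring

theorem gs_nonneg {d : ℤ} (hd : 1 ≤ d) (m : ℕ) : 0 ≤ gs d m := by
  unfold gs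
  exact sum_nonneg fun i _ => by positivity

theorem gs_mono {d : ℤ} (hd : 1 ≤ d) {m m' : ℕ} (h : m ≤ m') : gs d m ≤ gs d m' := by
  unfold gs
  exact sum_le_sum_of_subset_of_nonneg (range_subset_range.2 h) fun i _ _ => by positivity

/-- the orbit map -/
def step (a d x : ℤ) : ℤ := a + d * x

theorem step_iter (a d : ℤ) (m n : ℕ) (x : ℤ) :
    (step a d)^[m] ((itf a d n).1 * x + (itf a d n).2) =
      (itf a d (m + n)).1 * x + (itf a d (m + n)).2 :=
  iter_add a d m n x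

open Classical in
theorem orbitTuples (k : ℕ) (η : ℝ) (hη : 0 < η) :
    ∃ (W r C X₀ : ℕ) (ρ b : ℝ), 0 < W ∧ 0 < ρ ∧ 0 < b ∧
      ∀ a d : ℤ, a ≠ 0 → 1 ≤ d → IsCoprime a d → ∀ X : ℕ, X₀ ≤ X →
        ∃ (θ : Fin r → ℝ) (H : Finset (Fin k → ℕ)),
          b * X ≤ ((bohrPos θ ρ X).ncard : ℝ) ∧
          (∀ h ∈ H, (∀ i, h i ∈ bohrPos θ ρ X) ∧ Function.Injective h) ∧
          (1 - η) * ((bohrPos θ ρ X).ncard : ℝ) ^ k ≤ (H.card : ℝ) ∧
          ∃ᶠ N : ℕ in atTop, ∀ h ∈ H, (N : ℝ) / (Real.log N) ^ C ≤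
            ({q : ℕ | q ≤ N ∧ q.Prime ∧
              ∀ i, ((step a d)^[W * h i] (q : ℤ)).toNat.Prime}.ncard : ℝ) := by
  obtain ⟨z, r, C, X₀, ρ, b, hρ, hb, hS⟩ := seqTuples k (η / 3 ^ k) (by positivity)
  set W : ℕ := z.factorial with hW
  have hW0 : 0 < W := Nat.factorial_pos z
  refine ⟨W, r, C + 1, max X₀ ⌈3 / b⌉₊, ρ, b / 3, hW0, hρ, by positivity,
    fun a d ha hd had X hX => ?_⟩
  have hX1 : X₀ ≤ X := le_trans (le_max_left _ _) hX
  have hX2 : 3 ≤ b * X := by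
    have h1 : (3 / b : ℝ) ≤ X := (Nat.le_ceil _).trans (by exact_mod_cast (le_max_right _ _).trans hX)
    rw [div_le_iff₀ hb] at h1
    linarith
  set Φ : ℕ → ℤ × ℤ := fun u => itf a d (W * u) with hΦ
  have hΦinj : Function.Injective Φ := by
    intro u u' huu
    exact Nat.eq_of_mul_eq_mul_left hW0 (itf_inj hd ha huu)
  obtain ⟨θ, H, h1, h2, h3, h4⟩ := hS Φ hΦinj (fun u => ⟨by
      show 0 < d ^ (W * u)
      positivity, itf_coprime had _⟩)
    (fun p hp hpz => ⟨1, fun u => itf_local had z hp hpz u⟩) X hX1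
  have hPc : b / 3 * X ≤ ((bohrPos θ ρ X).ncard : ℝ) := by
    have h5 : ((bohrSet θ ρ X).ncard : ℝ) ≤ 2 * ((bohrPos θ ρ X).ncard : ℝ) + 1 := by
      exact_mod_cast bohrSet_le θ ρ X
    linarith
  have hP1 : 1 ≤ (bohrPos θ ρ X).ncard := by
    have : (1 : ℝ) ≤ ((bohrPos θ ρ X).ncard : ℝ) := by linarith
    exact_mod_cast this
  obtain ⟨H', h5, h6⟩ := pos_part θ ρ X η hη.le hP1 H (fun h hh i => ((h2 h hh).1 i).1) h3
  refine ⟨θ, H', hPc, fun h hh => ⟨(h5 h hh).1, fun i j hij => ?_⟩, h6, ?_⟩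
  · refine (h2 _ (h5 h hh).2).2 ?_
    show ((h i : ℕ) : ℤ) = ((h j : ℕ) : ℤ)
    rw [hij]
  · set D : ℕ := (d ^ (W * X) + |a| * gs d (W * X)).toNat with hD
    have hdp : (1 : ℤ) ≤ d ^ (W * X) := one_le_pow₀ hd
    have hag : 0 ≤ |a| * gs d (W * X) := mul_nonneg (abs_nonneg _) (gs_nonneg hd _)
    have hDe : (D : ℤ) = d ^ (W * X) + |a| * gs d (W * X) := Int.toNat_of_nonneg (by omega)
    have hD0 : 0 < D := by
      have : (0 : ℤ) < D := by rw [hDe]; omega
      exact_mod_cast this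
    have htend : Tendsto (fun N : ℕ => D * N) atTop atTop :=
      tendsto_atTop_mono (fun N => Nat.le_mul_of_pos_left N hD0) tendsto_id
    refine htend.frequently ((h4.and_eventually ((scale_log C D hD0).and
      (eventually_ge_atTop 1))).mono ?_)
    rintro N ⟨hN1, hN2, hN3⟩ h hh
    obtain ⟨c, hc1, hc2, hc3⟩ := hN1 _ (h5 h hh).2
    refine (hN2.trans hc3).trans ?_
    rw [Nat.cast_le]
    refine Set.ncard_le_ncard_of_injOn
      (fun n => ((Φ (c 0)).1 * (n : ℤ) + (Φ (c 0)).2).toNat) ?_ ?_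
      ((Set.finite_Iic (D * N)).subset fun p hp => hp.1)
    · rintro n ⟨hn1, hn2⟩
      have hq := hn2 0
      set Q : ℤ := (Φ (c 0)).1 * (n : ℤ) + (Φ (c 0)).2 with hQ
      have hQ0 : 0 ≤ Q := by
        by_contra hneg
        have : Q.toNat = 0 := Int.toNat_eq_zero.2 (by omega)
        rw [this] at hq
        exact Nat.not_prime_zero hq
      have hQc : ((Q.toNat : ℕ) : ℤ) = Q := Int.toNat_of_nonneg hQ0
      refine ⟨?_, hq, fun i => ?_⟩
      · show Q.toNat ≤ D * N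
        have hc0 : W * c 0 ≤ W * X := Nat.mul_le_mul_left _ (hc1 0)
        have e1 : (Φ (c 0)).1 ≤ d ^ (W * X) := pow_le_pow_right₀ hd hc0
        have e2 : (Φ (c 0)).2 ≤ |a| * gs d (W * X) := by
          show a * gs d (W * c 0) ≤ |a| * gs d (W * X)
          calc a * gs d (W * c 0) ≤ |a| * gs d (W * c 0) :=
                mul_le_mul_of_nonneg_right (le_abs_self a) (gs_nonneg hd _)
            _ ≤ |a| * gs d (W * X) := mul_le_mul_of_nonneg_left (gs_mono hd hc0) (abs_nonneg _)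
        have e3 : (n : ℤ) ≤ N := by exact_mod_cast hn1
        have e4 : (1 : ℤ) ≤ N := by exact_mod_cast hN3
        have e5 : Q ≤ (D : ℤ) * N := by
          rw [hDe, hQ]
          have e6 : (Φ (c 0)).1 * (n : ℤ) ≤ d ^ (W * X) * N := by
            calc (Φ (c 0)).1 * (n : ℤ) ≤ d ^ (W * X) * n :=
                  mul_le_mul_of_nonneg_right e1 (by positivity)
              _ ≤ d ^ (W * X) * N := mul_le_mul_of_nonneg_left e3 (by positivity)
          have e7 : |a| * gs d (W * X) ≤ |a| * gs d (W * X) * N := le_mul_of_one_le_right hag e4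
          linarith
        have e8 : ((Q.toNat : ℕ) : ℤ) ≤ ((D * N : ℕ) : ℤ) := by
          rw [hQc]
          push_cast
          exact e5
        exact_mod_cast e8
      · show ((step a d)^[W * h i] ((Q.toNat : ℕ) : ℤ)).toNat.Prime
        rw [hQc]
        have e1 : (step a d)^[W * h i] Q =
            (Φ (c i.succ)).1 * (n : ℤ) + (Φ (c i.succ)).2 := by
          rw [hQ]
          show (step a d)^[W * h i] ((itf a d (W * c 0)).1 * (n : ℤ) + (itf a d (W * c 0)).2) =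
            (itf a d (W * c i.succ)).1 * (n : ℤ) + (itf a d (W * c i.succ)).2
          rw [step_iter]
          have e2 : W * h i + W * c 0 = W * c i.succ := by
            rw [← Nat.mul_add]
            congr 1
            have := hc2 i
            omega
          rw [e2]
        rw [e1]
        exact hn2 i.succ
    · rintro n ⟨hn1, hn2⟩ n' ⟨hn1', hn2'⟩ hnn
      have hq := hn2 0
      have hq' := hn2' 0
      have hnn' : ((Φ (c 0)).1 * (n : ℤ) + (Φ (c 0)).2).toNat =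
        ((Φ (c 0)).1 * (n' : ℤ) + (Φ (c 0)).2).toNat := hnn
      have hpos : ∀ Q : ℤ, Q.toNat.Prime → ((Q.toNat : ℕ) : ℤ) = Q := by
        intro Q hQ
        refine Int.toNat_of_nonneg ?_
        by_contra hneg
        have : Q.toNat = 0 := Int.toNat_eq_zero.2 (by omega)
        rw [this] at hQ
        exact Nat.not_prime_zero hQ
      have e1 : (Φ (c 0)).1 * (n : ℤ) + (Φ (c 0)).2 = (Φ (c 0)).1 * (n' : ℤ) + (Φ (c 0)).2 := by
        rw [← hpos _ hq, ← hpos _ hq', hnn']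
      have e2 : (Φ (c 0)).1 * (n : ℤ) = (Φ (c 0)).1 * (n' : ℤ) := by linarith
      have e3 : (Φ (c 0)).1 ≠ 0 := by
        show d ^ (W * c 0) ≠ 0
        positivity
      exact_mod_cast mul_left_cancel₀ e3 e2

end Pool.Agent.V11161.BF
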