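import Mathlib
import Pool.Agent.V11161.CL.Nat

set_option autoImplicit false

/-!
# One cluster in a fixed set of shifts
-/

namespace Pool.Agent.V11161.BF

open Finset Filter Topology
open Pool.Agent.Y827.GS (Adf cntN)
open Pool.Agent.V11161.GV (lf lf_inj adf_lf)
open Pool.Agent.V11161.CL (mainOne conv_U cp freq_pigeon)

open Classical in
/-- one cluster, at one scale -/
theorem natOne (k : ℕ) (ε : ℝ) (hε : 0 < ε) :
    ∃ z n₀ C : ℕ, ∀ᶠ N : ℕ in atTop, ∀ V : Finset ℕ, n₀ ≤ V.card →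
      (∀ v ∈ V, v ≤ N) →
      (∀ p : ℕ, p.Prime → p ≤ z → ∃ r : ℤ, ∀ v ∈ V, ¬ ((p : ℤ) ∣ r + v)) →
      ∃ U ⊆ V, (5 / 18 - ε) * (V.card : ℝ) ≤ U.card ∧
        (1 - ε) * (U.card : ℝ) ^ (k + 1) ≤
          (((Fintype.piFinset (fun _ : Fin (k + 1) => U)).filter
      (fun a => Function.Injective a ∧ (N : ℝ) / (Real.log N) ^ C ≤ (cp a N : ℝ))).card : ℝ) := by
  obtain ⟨z, n₀, C, h⟩ := mainOne k ε hε
  refine ⟨z, n₀, C, ?_⟩
  filter_upwards [h 1] with N hN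
  intro V hn hV hloc
  have hcV : (V.image lf).card = V.card := card_image_of_injective _ lf_inj
  obtain ⟨U', h1, h2, h3⟩ := hN (V.image lf) (by rw [hcV]; exact hn) (by
      intro f hf
      obtain ⟨v, hv, rfl⟩ := mem_image.1 hf
      exact adf_lf (hV v hv)) (by
      intro p hp hpz
      obtain ⟨t, ht⟩ := hloc p hp hpz
      refine ⟨t, fun f hf => ?_⟩
      obtain ⟨v, hv, rfl⟩ := mem_image.1 hf
      have e : (lf v).1 * t + (lf v).2 = t + v := by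
        show (1 : ℤ) * t + v = t + v
        ring
      rw [e]
      exact ht v hv)
  set U : Finset ℕ := V.filter fun v => lf v ∈ U' with hU
  have hUi : U' = U.image lf := by
    ext f
    rw [mem_image]
    constructor
    · intro hf
      obtain ⟨v, hv, rfl⟩ := mem_image.1 (h1 hf)
      exact ⟨v, mem_filter.2 ⟨hv, hf⟩, rfl⟩
    · rintro ⟨v, hv, rfl⟩
      exact (mem_filter.1 hv).2
  have hUc : U'.card = U.card := by
    rw [hUi]
    exact card_image_of_injective _ lf_inj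
  refine ⟨U, filter_subset _ _, ?_, ?_⟩
  · rw [hcV, hUc] at h2
    exact h2
  · rw [hUc, hUi] at h3
    exact h3.trans (conv_U U _ N)

open Classical in
/-- **one cluster in a fixed set of shifts** -/
theorem fixOne (k : ℕ) (ε : ℝ) (hε : 0 < ε) :
    ∃ z n₀ C : ℕ, ∀ V : Finset ℕ, n₀ ≤ V.card →
      (∀ p : ℕ, p.Prime → p ≤ z → ∃ r : ℤ, ∀ v ∈ V, ¬ ((p : ℤ) ∣ r + v)) →
      ∃ (U : Finset ℕ) (G : Finset (Fin (k + 1) → ℕ)),
        U ⊆ V ∧ (5 / 18 - ε) * (V.card : ℝ) ≤ U.card ∧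
        (∀ a ∈ G, Function.Injective a ∧ ∀ i, a i ∈ U) ∧
        (1 - ε) * (U.card : ℝ) ^ (k + 1) ≤ (G.card : ℝ) ∧
        ∃ᶠ N : ℕ in atTop, ∀ a ∈ G, (N : ℝ) / (Real.log N) ^ C ≤ (cp a N : ℝ) := by
  obtain ⟨z, n₀, C, h⟩ := natOne k ε hε
  refine ⟨z, n₀, C, fun V hn hloc => ?_⟩
  set S : Finset (Finset ℕ × Finset (Fin (k + 1) → ℕ)) :=
    V.powerset ×ˢ (Fintype.piFinset fun _ : Fin (k + 1) => V).powerset with hS
  have h1 : ∀ᶠ N : ℕ in atTop, ∃ s ∈ S,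
      (s.1 ⊆ V ∧ (5 / 18 - ε) * (V.card : ℝ) ≤ s.1.card ∧
        (∀ a ∈ s.2, Function.Injective a ∧ ∀ i, a i ∈ s.1) ∧
        (1 - ε) * (s.1.card : ℝ) ^ (k + 1) ≤ (s.2.card : ℝ)) ∧
        ∀ a ∈ s.2, (N : ℝ) / (Real.log N) ^ C ≤ (cp a N : ℝ) := by
    filter_upwards [h, eventually_ge_atTop (V.sup id)] with N hN hNV
    obtain ⟨U, h1, h2, h5⟩ := hN V hn (fun v hv =>
      (Finset.le_sup (f := id) hv).trans hNV) hloc
    refine ⟨(U, (Fintype.piFinset (fun _ : Fin (k + 1) => U)).filter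
      (fun a => Function.Injective a ∧ (N : ℝ) / (Real.log N) ^ C ≤ (cp a N : ℝ))), ?_,
      ⟨h1, h2, ?_, h5⟩, ?_⟩
    · rw [hS, mem_product]
      refine ⟨mem_powerset.2 h1, mem_powerset.2 ?_⟩
      intro a ha
      have h6 := Fintype.mem_piFinset.1 (mem_filter.1 ha).1
      rw [Fintype.mem_piFinset]
      exact fun i => h1 (h6 i)
    · intro a ha
      obtain ⟨h6, h7, -⟩ := mem_filter.1 ha
      exact ⟨h7, Fintype.mem_piFinset.1 h6⟩
    · intro a ha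
      exact (mem_filter.1 ha).2.2
  obtain ⟨s, -, hs⟩ := freq_pigeon S _ h1
  obtain ⟨N₁, hN₁, -⟩ := hs.exists
  obtain ⟨a1, a2, a3, a4⟩ := hN₁
  exact ⟨s.1, s.2, a1, a2, a3, a4, hs.mono fun N hN => hN.2⟩

end Pool.Agent.V11161.BF
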