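import Mathlib
import Pool.Agent.V11161.BF.Lift
import Pool.Agent.V11161.BF.One

set_option autoImplicit false

/-!
# Prime tuples with differences in a Bohr set
-/

namespace Pool.Agent.V11161.BF

open Finset Filter Topology
open Pool.Agent.V11161.CL (cp)

open Classical in
/-- **almost all `k`-tuples of a Bohr set of bounded rank and radius satisfy the prime tuples
conjecture** -/
theorem bohrTuples (k : ℕ) (η : ℝ) (hη : 0 < η) :
    ∃ (W d C X₀ : ℕ) (ρ b : ℝ), 0 < W ∧ 0 < ρ ∧ 0 < b ∧ ∀ X : ℕ, X₀ ≤ X →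
      ∃ (θ : Fin d → ℝ) (H : Finset (Fin k → ℤ)),
        b * X ≤ ((bohrSet θ ρ X).ncard : ℝ) ∧
        (∀ h ∈ H, (∀ i, h i ∈ bohrSet θ ρ X ∧ h i ≠ 0) ∧ Function.Injective h) ∧
        (1 - η) * ((bohrSet θ ρ X).ncard : ℝ) ^ k ≤ (H.card : ℝ) ∧
        ∃ᶠ N : ℕ in atTop, ∀ h ∈ H, (N : ℝ) / (Real.log N) ^ C ≤
          ({p : ℕ | p ≤ 2 * N ∧ p.Prime ∧
            ∀ i, ∃ q : ℕ, q.Prime ∧ (q : ℤ) = p + W * h i}.ncard : ℝ) := by
  obtain ⟨d, ρ, b, ε, hρ, hb, hε0, hε1, hbd⟩ := bohr_diff k η hη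
  obtain ⟨z, n₀, C, hfix⟩ := fixOne k ε hε0
  set W : ℕ := primorial z with hW
  have hW0 : 0 < W := primorial_pos z
  refine ⟨W, d, C, n₀, ρ, b, hW0, hρ, hb, fun X hX => ?_⟩
  set V : Finset ℕ := (range (X + 1)).image (fun x => W * x) with hV
  have hinjW : Function.Injective (fun x : ℕ => W * x) := fun x y h =>
    Nat.eq_of_mul_eq_mul_left hW0 h
  have hVc : V.card = X + 1 := by
    rw [hV, card_image_of_injective _ hinjW, card_range]
  obtain ⟨U, G, hU1, hU2, hG1, hG2, hfr⟩ := hfix V (by rw [hVc]; omega) (by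
    intro p hp hpz
    refine ⟨1, fun v hv hdvd => ?_⟩
    obtain ⟨x, -, rfl⟩ := mem_image.1 hv
    have h1 : p ∣ W := by
      rw [hW]
      unfold primorial
      exact dvd_prod_of_mem _ (mem_filter.2 ⟨mem_range.2 (by omega), hp⟩)
    have h2 : (p : ℤ) ∣ ((W * x : ℕ) : ℤ) := by
      exact_mod_cast h1.mul_right x
    have h3 : (p : ℤ) ∣ 1 := (Int.dvd_iff_dvd_of_dvd_add hdvd).2 h2
    have h4 : p ∣ 1 := by exact_mod_cast h3
    exact hp.one_lt.ne' (Nat.dvd_one.1 h4))
  set U' : Finset ℕ := (range (X + 1)).filter (fun x => W * x ∈ U) with hU'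
  have hUU : U = U'.image (fun x => W * x) := by
    ext u
    rw [mem_image]
    constructor
    · intro hu
      obtain ⟨x, hx, rfl⟩ := mem_image.1 (hU1 hu)
      exact ⟨x, mem_filter.2 ⟨hx, hu⟩, rfl⟩
    · rintro ⟨x, hx, rfl⟩
      exact (mem_filter.1 hx).2
  have hUc : U.card = U'.card := by
    conv_lhs => rw [hUU]
    exact card_image_of_injective _ hinjW
  set G' : Finset (Fin (k + 1) → ℕ) := (Fintype.piFinset fun _ : Fin (k + 1) => U').filter
    (fun a => (fun i => W * a i) ∈ G) with hG'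
  have hinjG : Function.Injective (fun a : Fin (k + 1) → ℕ => fun i => W * a i) := by
    intro a a' h
    funext i
    exact hinjW (congrFun h i)
  have hGG : G = G'.image (fun a => fun i => W * a i) := by
    ext a
    rw [mem_image]
    constructor
    · intro ha
      have h1 : ∀ i, ∃ x ∈ U', W * x = a i := by
        intro i
        have h2 := (hG1 a ha).2 i
        rw [hUU] at h2
        exact mem_image.1 h2
      choose x hx1 hx2 using h1
      have h3 : (fun i => W * x i) = a := funext hx2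
      refine ⟨x, mem_filter.2 ⟨?_, ?_⟩, h3⟩
      · rw [Fintype.mem_piFinset]
        exact hx1
      · rw [h3]; exact ha
    · rintro ⟨x, hx, rfl⟩
      exact (mem_filter.1 hx).2
  have hGc : G.card = G'.card := by
    conv_lhs => rw [hGG]
    exact card_image_of_injective _ hinjG
  obtain ⟨θ, H, hH1, hH2, hH3⟩ := hbd X U' G' (by
      intro u hu
      have := mem_range.1 (mem_filter.1 hu).1
      omega) (by
      rw [← hUc]
      refine le_trans ?_ hU2
      rw [hVc]
      push_cast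
      have : (0 : ℝ) ≤ (X : ℝ) + 1 := by positivity
      nlinarith) (by
      intro a ha
      obtain ⟨h1, h2⟩ := mem_filter.1 ha
      refine ⟨?_, Fintype.mem_piFinset.1 h1⟩
      intro i j hij
      exact (hG1 _ h2).1 (by simp only [hij])) (by
      rw [← hUc, ← hGc]
      exact hG2)
  refine ⟨θ, H, hH1, ?_, hH3, ?_⟩
  · intro h hh
    obtain ⟨h1, a, ha, h2⟩ := hH2 h hh
    have hainj : Function.Injective a := by
      intro i j hij
      exact (hG1 _ (mem_filter.1 ha).2).1 (by simp only [hij])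
    refine ⟨fun i => ⟨h1 i, ?_⟩, ?_⟩
    · rw [← h2 i]
      intro h0
      have h3 : a i.succ = a 0 := by omega
      exact absurd (hainj h3) (Fin.succ_ne_zero i)
    · intro i j hij
      rw [← h2 i, ← h2 j] at hij
      have h3 : a i.succ = a j.succ := by omega
      exact Fin.succ_injective _ (hainj h3)
  · refine (hfr.and_eventually (eventually_ge_atTop (W * X))).mono ?_
    rintro N ⟨hN1, hN2⟩ h hh
    obtain ⟨-, a, ha, h2⟩ := hH2 h hh
    obtain ⟨h3, h4⟩ := mem_filter.1 ha
    refine (hN1 _ h4).trans ?_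
    unfold cp
    rw [Nat.cast_le]
    refine Set.ncard_le_ncard_of_injOn (fun n => n + W * a 0) ?_ ?_ ?_
    · rintro n ⟨hn1, hn2⟩
      have h5 : a 0 ≤ X := by
        have := mem_range.1 (mem_filter.1 (Fintype.mem_piFinset.1 h3 0)).1
        omega
      have h6 : W * a 0 ≤ W * X := Nat.mul_le_mul_left _ h5
      refine ⟨?_, hn2 0, fun i => ⟨n + W * a i.succ, hn2 i.succ, ?_⟩⟩
      · show n + W * a 0 ≤ 2 * N
        omega
      · show ((n + W * a i.succ : ℕ) : ℤ) = ((n + W * a 0 : ℕ) : ℤ) + W * h i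
        rw [← h2 i]
        push_cast
        ring
    · intro n _ n' _ hnn
      have h7 : n + W * a 0 = n' + W * a 0 := hnn
      omega
    · exact (Set.finite_Iic (2 * N)).subset fun p hp => hp.1

end Pool.Agent.V11161.BF
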